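import Mathlib

/-!
Calculus along a line: `r(t) A(n b(t)/r(t)) / n^2` for quadratic polynomials `r > 0`, `b`.
-/

namespace Pool.Agent.R509NU

open Real

/-- the oscillating profile -/
noncomputable def A (t : ℝ) : ℝ := cos t + cos (2 * t)
noncomputable def A1 (t : ℝ) : ℝ := -sin t - 2 * sin (2 * t)
noncomputable def A2 (t : ℝ) : ℝ := -cos t - 4 * cos (2 * t)

lemma hasDerivAt_A (t : ℝ) : HasDerivAt A (A1 t) t := by
  have h1 := (Real.hasDerivAt_cos t)
  have h2 := (Real.hasDerivAt_cos (2 * t)).comp t ((hasDerivAt_id t).const_mul 2)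
  have h3 := h1.add h2
  refine (h3.congr_deriv ?_)
  simp only [A1]
  ring

lemma hasDerivAt_A1 (t : ℝ) : HasDerivAt A1 (A2 t) t := by
  have h1 := (Real.hasDerivAt_sin t).neg
  have h2 := ((Real.hasDerivAt_sin (2 * t)).comp t ((hasDerivAt_id t).const_mul 2)).const_mul 2
  have h3 := h1.sub h2
  refine (h3.congr_deriv ?_)
  simp only [A2]
  ring

lemma abs_A_le (t : ℝ) : |A t| ≤ 2 := by
  unfold A
  refine (abs_add_le _ _).trans ?_
  linarith [abs_cos_le_one t, abs_cos_le_one (2 * t)]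

lemma abs_A1_le (t : ℝ) : |A1 t| ≤ 3 := by
  unfold A1
  have h1 := abs_le.1 (abs_sin_le_one t)
  have h2 := abs_le.1 (abs_sin_le_one (2 * t))
  rw [abs_le]
  constructor <;> linarith [h1.1, h1.2, h2.1, h2.2]

lemma abs_A2_le (t : ℝ) : |A2 t| ≤ 5 := by
  unfold A2
  have h1 := abs_le.1 (abs_cos_le_one t)
  have h2 := abs_le.1 (abs_cos_le_one (2 * t))
  rw [abs_le]
  constructor <;> linarith [h1.1, h1.2, h2.1, h2.2]

lemma A_lip (s t : ℝ) : |A s - A t| ≤ 3 * |s - t| := by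
  have h := Convex.norm_image_sub_le_of_norm_hasDerivWithin_le (f := A) (f' := A1) (s := Set.univ)
    (x := t) (y := s) (C := 3) (fun x _ => (hasDerivAt_A x).hasDerivWithinAt)
    (fun x _ => by simpa using abs_A1_le x) convex_univ (Set.mem_univ _) (Set.mem_univ _)
  simpa using h

lemma line_convex (n : ℝ) (hn : 1 ≤ n) (r0 r1 r2 b0 b1 b2 : ℝ) (c : ℝ) (hc : |c| ≤ 1)
    (hr : ∀ t : ℝ, 0 < r0 + 2 * r1 * t + r2 * t ^ 2)
    (hb : ∀ t : ℝ, |b0 + 2 * b1 * t + b2 * t ^ 2| ≤ r0 + 2 * r1 * t + r2 * t ^ 2)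
    (hr' : ∀ t : ℝ, (r1 + r2 * t) ^ 2 ≤ (r0 + 2 * r1 * t + r2 * t ^ 2) * r2)
    (hb' : ∀ t : ℝ, (b1 + b2 * t) ^ 2 ≤ (r0 + 2 * r1 * t + r2 * t ^ 2) * r2)
    (hb2 : |b2| ≤ r2) :
    ConvexOn ℝ Set.univ (fun t : ℝ =>
      c * ((r0 + 2 * r1 * t + r2 * t ^ 2) *
        A (n * ((b0 + 2 * b1 * t + b2 * t ^ 2) / (r0 + 2 * r1 * t + r2 * t ^ 2))) / n ^ 2)
        + 48 * r2 * t ^ 2) := by
  have hn0 : (0:ℝ) < n := by linarith
  set r : ℝ → ℝ := fun t => r0 + 2 * r1 * t + r2 * t ^ 2 with hrdef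
  set b : ℝ → ℝ := fun t => b0 + 2 * b1 * t + b2 * t ^ 2 with hbdef
  have hdr : ∀ t, HasDerivAt r (2 * (r1 + r2 * t)) t := by
    intro t
    have := (((hasDerivAt_id t).const_mul (2 * r1)).const_add r0).add
      (((hasDerivAt_id t).pow 2).const_mul r2)
    refine this.congr_deriv ?_
    simp only [id]
    ring
  have hdb : ∀ t, HasDerivAt b (2 * (b1 + b2 * t)) t := by
    intro t
    have := (((hasDerivAt_id t).const_mul (2 * b1)).const_add b0).add
      (((hasDerivAt_id t).pow 2).const_mul b2)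
    refine this.congr_deriv ?_
    simp only [id]
    ring
  have hdr1 : ∀ t, HasDerivAt (fun t => 2 * (r1 + r2 * t)) (2 * r2) t := by
    intro t
    have := (((hasDerivAt_id t).const_mul r2).const_add r1).const_mul 2
    refine this.congr_deriv ?_
    ring
  have hdb1 : ∀ t, HasDerivAt (fun t => 2 * (b1 + b2 * t)) (2 * b2) t := by
    intro t
    have := (((hasDerivAt_id t).const_mul b2).const_add b1).const_mul 2
    refine this.congr_deriv ?_
    ring
  have hrpos : ∀ t, 0 < r t := hr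
  have hdθ : ∀ t, HasDerivAt (fun t => b t / r t)
      ((2 * (b1 + b2 * t) - b t / r t * (2 * (r1 + r2 * t))) / r t) t := by
    intro t
    have h := (hdb t).div (hdr t) (hrpos t).ne'
    refine h.congr_deriv ?_
    have := (hrpos t).ne'
    field_simp
  have hdAθ : ∀ t, HasDerivAt (fun t => A (n * (b t / r t)))
      (A1 (n * (b t / r t)) * (n * ((2 * (b1 + b2 * t) - b t / r t * (2 * (r1 + r2 * t))) / r t))) t := by
    intro t
    exact (hasDerivAt_A _).comp t ((hdθ t).const_mul n)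
  have hdA1θ : ∀ t, HasDerivAt (fun t => A1 (n * (b t / r t)))
      (A2 (n * (b t / r t)) * (n * ((2 * (b1 + b2 * t) - b t / r t * (2 * (r1 + r2 * t))) / r t))) t := by
    intro t
    exact (hasDerivAt_A1 _).comp t ((hdθ t).const_mul n)
  set f : ℝ → ℝ := fun t => c * (r t * A (n * (b t / r t)) / n ^ 2) + 48 * r2 * t ^ 2 with hf
  set f1 : ℝ → ℝ := fun t => c * ((2 * (r1 + r2 * t)) * A (n * (b t / r t)) / n ^ 2
      + A1 (n * (b t / r t)) * (2 * (b1 + b2 * t) - b t / r t * (2 * (r1 + r2 * t))) / n)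
      + 96 * r2 * t with hf1
  set f2 : ℝ → ℝ := fun t => c * (2 * r2 * A (n * (b t / r t)) / n ^ 2
      + A1 (n * (b t / r t)) * (2 * b2 - b t / r t * (2 * r2)) / n
      + A2 (n * (b t / r t)) * (2 * (b1 + b2 * t) - b t / r t * (2 * (r1 + r2 * t))) ^ 2 / r t)
      + 96 * r2 with hf2
  have hdf : ∀ t, HasDerivAt f (f1 t) t := by
    intro t
    have h := ((((hdr t).mul (hdAθ t)).div_const (n ^ 2)).const_mul c).add
      (((hasDerivAt_id t).pow 2).const_mul (48 * r2))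
    refine h.congr_deriv ?_
    simp only [hf1, id]
    have h1 := (hrpos t).ne'
    have h2 := hn0.ne'
    field_simp
    ring
  have hdf1 : ∀ t, HasDerivAt f1 (f2 t) t := by
    intro t
    have hin := ((hdb1 t).sub ((hdθ t).mul (hdr1 t)))
    have h := (((((hdr1 t).mul (hdAθ t)).div_const (n ^ 2)).add
      (((hdA1θ t).mul hin).div_const n)).const_mul c).add
      ((hasDerivAt_id t).const_mul (96 * r2))
    refine h.congr_deriv ?_
    simp only [hf2]
    have h1 := (hrpos t).ne'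
    have h2 := hn0.ne'
    simp only [Pi.mul_apply, Pi.sub_apply]
    field_simp
    ring
  have hder1 : deriv f = f1 := by
    funext t; exact (hdf t).deriv
  have hder2 : deriv f1 = f2 := by
    funext t; exact (hdf1 t).deriv
  refine convexOn_univ_of_deriv2_nonneg (fun t => (hdf t).differentiableAt) ?_ ?_
  · rw [hder1]; exact fun t => (hdf1 t).differentiableAt
  · intro t
    have : deriv^[2] f t = f2 t := by
      simp only [Function.iterate_succ, Function.iterate_zero, Function.comp, id]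
      rw [hder1, hder2]
    rw [this]
    -- the bound
    have hrt := hrpos t
    have hθ : |b t / r t| ≤ 1 := by
      rw [abs_div, abs_of_pos hrt, div_le_one hrt]
      exact hb t
    have hr2 : 0 ≤ r2 := (abs_nonneg _).trans hb2
    set θ := b t / r t with hθdef
    set u := r1 + r2 * t with hu
    set v := b1 + b2 * t with hv
    have hu2 : u ^ 2 ≤ r t * r2 := hr' t
    have hv2 : v ^ 2 ≤ r t * r2 := hb' t
    have hw : (2 * v - θ * (2 * u)) ^ 2 ≤ 16 * (r t * r2) := by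
      have hθ2 : θ ^ 2 ≤ 1 := by
        have := abs_le.1 hθ
        nlinarith [this.1, this.2]
      have : (θ * u) ^ 2 ≤ r t * r2 := by
        rw [mul_pow]
        nlinarith [sq_nonneg u]
      nlinarith [sq_nonneg (v + θ * u)]
    have hA0 := abs_A_le (n * θ)
    have hA1 := abs_A1_le (n * θ)
    have hA2 := abs_A2_le (n * θ)
    have hn2 : (1:ℝ) ≤ n ^ 2 := by nlinarith
    have e1 : |2 * r2 * A (n * θ) / n ^ 2| ≤ 4 * r2 := by
      rw [abs_div, abs_of_pos (by positivity : (0:ℝ) < n ^ 2), div_le_iff₀ (by positivity)]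
      rw [abs_mul, abs_of_nonneg (by positivity : (0:ℝ) ≤ 2 * r2)]
      calc 2 * r2 * |A (n * θ)| ≤ 2 * r2 * 2 := by gcongr
        _ = 4 * r2 * 1 := by ring
        _ ≤ 4 * r2 * n ^ 2 := by gcongr
    have e2 : |A1 (n * θ) * (2 * b2 - θ * (2 * r2)) / n| ≤ 12 * r2 := by
      have : |2 * b2 - θ * (2 * r2)| ≤ 4 * r2 := by
        have h1 : |2 * b2 - θ * (2 * r2)| ≤ |2 * b2| + |θ * (2 * r2)| := abs_sub _ _
        rw [abs_mul, abs_mul θ] at h1
        rw [abs_of_nonneg (by positivity : (0:ℝ) ≤ 2 * r2), abs_of_pos (by norm_num : (0:ℝ) < 2)] at h1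
        nlinarith [abs_nonneg θ]
      rw [abs_div, abs_of_pos hn0, div_le_iff₀ hn0, abs_mul]
      calc |A1 (n * θ)| * |2 * b2 - θ * (2 * r2)| ≤ 3 * (4 * r2) := by gcongr
        _ = 12 * r2 * 1 := by ring
        _ ≤ 12 * r2 * n := by gcongr
    have e3 : |A2 (n * θ) * (2 * v - θ * (2 * u)) ^ 2 / r t| ≤ 80 * r2 := by
      rw [abs_div, abs_of_pos hrt, div_le_iff₀ hrt, abs_mul, abs_of_nonneg (sq_nonneg (2 * v - θ * (2 * u)))]
      calc |A2 (n * θ)| * (2 * v - θ * (2 * u)) ^ 2 ≤ 5 * (16 * (r t * r2)) := by gcongr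
        _ = 80 * r2 * r t := by ring
    have hsum : |2 * r2 * A (n * θ) / n ^ 2 + A1 (n * θ) * (2 * b2 - θ * (2 * r2)) / n
        + A2 (n * θ) * (2 * v - θ * (2 * u)) ^ 2 / r t| ≤ 96 * r2 := by
      refine (abs_add_le _ _).trans ?_
      have := abs_add_le (2 * r2 * A (n * θ) / n ^ 2) (A1 (n * θ) * (2 * b2 - θ * (2 * r2)) / n)
      linarith
    have hcs : |c * (2 * r2 * A (n * θ) / n ^ 2 + A1 (n * θ) * (2 * b2 - θ * (2 * r2)) / n
        + A2 (n * θ) * (2 * v - θ * (2 * u)) ^ 2 / r t)| ≤ 96 * r2 := by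
      rw [abs_mul]
      calc _ ≤ 1 * (96 * r2) := by gcongr
        _ = _ := one_mul _
    have := (abs_le.1 hcs).1
    simp only [hf2]
    linarith

end Pool.Agent.R509NU
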