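import Mathlib
import Pool.Agent.R509NU.Calc

namespace Pool.Agent.R509NU

open Real

abbrev E2 := EuclideanSpace ℂ (Fin 2)

noncomputable def bb (x : E2) : ℝ := (x 1 * (starRingEnd ℂ) (x 0)).re

noncomputable def bbl (x h : E2) : ℝ :=
  ((h 1 * (starRingEnd ℂ) (x 0)).re + (x 1 * (starRingEnd ℂ) (h 0)).re) / 2

noncomputable def rl (x h : E2) : ℝ :=
  (h 0 * (starRingEnd ℂ) (x 0)).re + (h 1 * (starRingEnd ℂ) (x 1)).re

noncomputable def q (n : ℝ) (x : E2) : ℝ := ‖x‖ ^ 2 * A (n * (bb x / ‖x‖ ^ 2)) / n ^ 2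

lemma nsq (x : E2) : ‖x‖ ^ 2 = ‖x 0‖ ^ 2 + ‖x 1‖ ^ 2 := by
  rw [EuclideanSpace.norm_sq_eq, Fin.sum_univ_two]

lemma nsq_line (x h : E2) (t : ℝ) :
    ‖x + (t : ℂ) • h‖ ^ 2 = ‖x‖ ^ 2 + 2 * rl x h * t + ‖h‖ ^ 2 * t ^ 2 := by
  simp only [nsq, rl, PiLp.add_apply, PiLp.smul_apply, smul_eq_mul, Complex.sq_norm,
    Complex.normSq_apply, Complex.add_re, Complex.add_im, Complex.mul_re, Complex.mul_im,
    Complex.ofReal_re, Complex.ofReal_im, Complex.conj_re, Complex.conj_im]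
  ring

lemma bb_line (x h : E2) (t : ℝ) :
    bb (x + (t : ℂ) • h) = bb x + 2 * bbl x h * t + bb h * t ^ 2 := by
  simp only [bb, bbl, PiLp.add_apply, PiLp.smul_apply, smul_eq_mul,
    Complex.add_re, Complex.add_im, Complex.mul_re, Complex.mul_im, map_add, map_mul,
    Complex.ofReal_re, Complex.ofReal_im, Complex.conj_re, Complex.conj_im]
  ring

lemma rl_line (x h : E2) (t : ℝ) : rl (x + (t : ℂ) • h) h = rl x h + ‖h‖ ^ 2 * t := by
  simp only [nsq, rl, PiLp.add_apply, PiLp.smul_apply, smul_eq_mul, Complex.sq_norm,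
    Complex.normSq_apply, Complex.add_re, Complex.add_im, Complex.mul_re, Complex.mul_im,
    Complex.ofReal_re, Complex.ofReal_im, Complex.conj_re, Complex.conj_im]
  ring

lemma bbl_line (x h : E2) (t : ℝ) : bbl (x + (t : ℂ) • h) h = bbl x h + bb h * t := by
  simp only [bb, bbl, PiLp.add_apply, PiLp.smul_apply, smul_eq_mul,
    Complex.add_re, Complex.add_im, Complex.mul_re, Complex.mul_im,
    Complex.ofReal_re, Complex.ofReal_im, Complex.conj_re, Complex.conj_im]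
  ring

lemma abs_re_le (z w : ℂ) : |(z * (starRingEnd ℂ) w).re| ≤ ‖z‖ * ‖w‖ := by
  refine (Complex.abs_re_le_norm _).trans ?_
  rw [norm_mul, Complex.norm_conj]

lemma abs_bb_le (x : E2) : |bb x| ≤ ‖x‖ ^ 2 := by
  refine (abs_re_le _ _).trans ?_
  rw [nsq]
  nlinarith [sq_nonneg (‖x 1‖ - ‖x 0‖), sq_nonneg ‖x 0‖, sq_nonneg ‖x 1‖]

lemma rl_sq (x h : E2) : rl x h ^ 2 ≤ ‖x‖ ^ 2 * ‖h‖ ^ 2 := by
  have h1 := abs_re_le (h 0) (x 0)
  have h2 := abs_re_le (h 1) (x 1)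
  have h3 : |rl x h| ≤ ‖h 0‖ * ‖x 0‖ + ‖h 1‖ * ‖x 1‖ := (abs_add_le _ _).trans (by linarith)
  rw [← sq_abs, nsq x, nsq h]
  have h4 := pow_le_pow_left₀ (abs_nonneg _) h3 2
  nlinarith [sq_nonneg (‖h 0‖ * ‖x 1‖ - ‖h 1‖ * ‖x 0‖)]

lemma bbl_sq (x h : E2) : bbl x h ^ 2 ≤ ‖x‖ ^ 2 * ‖h‖ ^ 2 := by
  have h1 := abs_re_le (h 1) (x 0)
  have h2 := abs_re_le (x 1) (h 0)
  have h3 : |bbl x h| ≤ ‖h 1‖ * ‖x 0‖ + ‖x 1‖ * ‖h 0‖ := by
    unfold bbl
    rw [abs_div, abs_of_pos (by norm_num : (0:ℝ) < 2)]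
    have := abs_add_le (h 1 * (starRingEnd ℂ) (x 0)).re (x 1 * (starRingEnd ℂ) (h 0)).re
    have h5 : 0 ≤ ‖h 1‖ * ‖x 0‖ := by positivity
    have h6 : 0 ≤ ‖x 1‖ * ‖h 0‖ := by positivity
    linarith
  rw [← sq_abs, nsq x, nsq h]
  have h4 := pow_le_pow_left₀ (abs_nonneg _) h3 2
  nlinarith [sq_nonneg (‖h 0‖ * ‖x 0‖ - ‖h 1‖ * ‖x 1‖)]

lemma bb_smul (c : ℂ) (x : E2) : bb (c • x) = ‖c‖ ^ 2 * bb x := by
  simp only [bb, PiLp.smul_apply, smul_eq_mul, map_mul, Complex.sq_norm,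
    Complex.normSq_apply, Complex.mul_re, Complex.mul_im, Complex.conj_re, Complex.conj_im]
  ring

lemma q_smul (n : ℝ) (c : ℂ) (x : E2) : q n (c • x) = ‖c‖ ^ 2 * q n x := by
  unfold q
  by_cases hc : c = 0
  · simp [hc]
  · have hc' : ‖c‖ ^ 2 ≠ 0 := by positivity
    rw [bb_smul, norm_smul, mul_pow, mul_div_mul_left _ _ hc']
    ring

lemma abs_q_le {n : ℝ} (hn : 1 ≤ n) (x : E2) : |q n x| ≤ 2 * ‖x‖ ^ 2 / n ^ 2 := by
  unfold q
  rw [abs_div, abs_of_pos (by positivity : (0:ℝ) < n ^ 2), abs_mul,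
    abs_of_nonneg (by positivity : (0:ℝ) ≤ ‖x‖ ^ 2)]
  apply div_le_div_of_nonneg_right _ (by positivity)
  rw [mul_comm]
  exact mul_le_mul_of_nonneg_right (abs_A_le _) (by positivity)

lemma abs_q_le' {n : ℝ} (hn : 1 ≤ n) (x : E2) : |q n x| ≤ 2 * ‖x‖ ^ 2 := by
  refine (abs_q_le hn x).trans ?_
  rw [div_le_iff₀ (by positivity)]
  have : (1:ℝ) ≤ n ^ 2 := by nlinarith
  nlinarith [sq_nonneg ‖x‖]

lemma q_line_convex {n : ℝ} (hn : 1 ≤ n) (x h : E2) (hne : ∀ t : ℝ, x + (t : ℂ) • h ≠ 0)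
    (c : ℝ) (hc : |c| ≤ 1) :
    ConvexOn ℝ Set.univ (fun t : ℝ => c * q n (x + (t : ℂ) • h) + 48 * ‖h‖ ^ 2 * t ^ 2) := by
  have h := line_convex n hn (‖x‖ ^ 2) (rl x h) (‖h‖ ^ 2) (bb x) (bbl x h) (bb h) c hc
    (fun t => by rw [← nsq_line]; have := hne t; positivity)
    (fun t => by rw [← nsq_line, ← bb_line]; exact abs_bb_le _)
    (fun t => by rw [← nsq_line, ← rl_line]; exact rl_sq _ _)
    (fun t => by rw [← nsq_line, ← bbl_line]; exact bbl_sq _ _)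
    (abs_bb_le h)
  refine h.congr fun t _ => ?_
  simp only [q, nsq_line, bb_line]

/-- Jensen with quadratic error for `q n`. -/
lemma q_jensen {n : ℝ} (hn : 1 ≤ n) (x y : E2) {a b : ℝ} (ha : 0 ≤ a) (hb : 0 ≤ b)
    (hab : a + b = 1) :
    |q n ((a : ℂ) • x + (b : ℂ) • y) - (a * q n x + b * q n y)| ≤ 48 * (a * b) * ‖x - y‖ ^ 2 := by
  set h : E2 := y - x with hh
  have hpt : ((a : ℂ) • x + (b : ℂ) • y) = x + (b : ℂ) • h := by
    have h0 : a = 1 - b := by linarith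
    have : (a : ℂ) = 1 - (b : ℂ) := by rw [h0]; push_cast; ring
    rw [this, hh]; module
  have hy : y = x + ((1:ℝ) : ℂ) • h := by rw [hh]; simp
  have hxy : ‖x - y‖ = ‖h‖ := by rw [hh, norm_sub_rev]
  rw [hpt, hxy]
  by_cases hne : ∀ t : ℝ, x + (t : ℂ) • h ≠ 0
  · have key : ∀ c : ℝ, |c| ≤ 1 →
        c * (q n (x + (b : ℂ) • h) - (a * q n x + b * q n y)) ≤ 48 * (a * b) * ‖h‖ ^ 2 := by
      intro c hc
      have hconv := (q_line_convex hn x h hne c hc).2 (Set.mem_univ (0:ℝ)) (Set.mem_univ (1:ℝ))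
        ha hb hab
      simp only [smul_eq_mul, mul_zero, mul_one, zero_add, Complex.ofReal_zero, zero_smul,
        add_zero] at hconv
      rw [← hy] at hconv
      have ha' : a = 1 - b := by linarith
      rw [ha'] at hconv ⊢
      nlinarith
    rw [abs_le]
    have k1 := key 1 (by simp)
    have k2 := key (-1) (by simp)
    constructor <;> linarith
  · push Not at hne
    obtain ⟨t, ht⟩ := hne
    have hx : x = ((-t : ℝ) : ℂ) • h := by
      have : x = -((t : ℂ) • h) := eq_neg_of_add_eq_zero_left ht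
      rw [this]; push_cast; module
    have e1 : q n (x + (b : ℂ) • h) = (b - t) ^ 2 * q n h := by
      have : x + (b : ℂ) • h = ((b - t : ℝ) : ℂ) • h := by
        conv_lhs => rw [hx]
        push_cast; module
      rw [this, q_smul, Complex.norm_real, Real.norm_eq_abs, sq_abs]
    have e2 : q n x = t ^ 2 * q n h := by
      conv_lhs => rw [hx]
      rw [q_smul, Complex.norm_real, Real.norm_eq_abs, sq_abs]; ring
    have e3 : q n y = (1 - t) ^ 2 * q n h := by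
      have : y = ((1 - t : ℝ) : ℂ) • h := by
        conv_lhs => rw [hy, hx]
        push_cast; module
      conv_lhs => rw [this]
      rw [q_smul, Complex.norm_real, Real.norm_eq_abs, sq_abs]
    rw [e1, e2, e3]
    have ha' : a = 1 - b := by linarith
    have e4 : (b - t) ^ 2 * q n h - (a * (t ^ 2 * q n h) + b * ((1 - t) ^ 2 * q n h))
        = -(a * b) * q n h := by rw [ha']; ring
    rw [e4, abs_mul, abs_neg, abs_of_nonneg (by positivity : 0 ≤ a * b)]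
    have := abs_q_le' hn h
    have h5 : 0 ≤ a * b := by positivity
    nlinarith [sq_nonneg ‖h‖, mul_nonneg h5 (sq_nonneg ‖h‖)]

end Pool.Agent.R509NU
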