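import Mathlib

/-!
Definitions for `MP_3cb207_an`: the pairs `Pi(X)`, the numerical radius, the
Bishop-Phelps-Bollobas property for the numerical radius, and property (nu).
-/

namespace Pool.Agent.R509NU

variable (𝕜 X : Type*) [RCLike 𝕜] [NormedAddCommGroup X] [NormedSpace 𝕜 X]

/-- `Pi(X)`: pairs `(x, x*)` of norm one with `x*(x) = 1`. -/
def PiSet : Set (X × (X →L[𝕜] 𝕜)) :=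
  {p | ‖p.1‖ = 1 ∧ ‖p.2‖ = 1 ∧ p.2 p.1 = 1}

variable {𝕜 X} in
/-- The numerical radius of `T`. -/
noncomputable def nu (T : X →L[𝕜] X) : ℝ :=
  sSup {r : ℝ | ∃ p ∈ PiSet 𝕜 X, r = ‖p.2 (T p.1)‖}

/-- The Bishop-Phelps-Bollobas property for the numerical radius. -/
def BPBpNu : Prop :=
  ∀ ε : ℝ, 0 < ε → ∃ η : ℝ, 0 < η ∧
    ∀ (T : X →L[𝕜] X) (x₀ : X) (f₀ : X →L[𝕜] 𝕜), nu T = 1 → (x₀, f₀) ∈ PiSet 𝕜 X →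
      1 - η < ‖f₀ (T x₀)‖ →
      ∃ (S : X →L[𝕜] X) (x₁ : X) (f₁ : X →L[𝕜] 𝕜), (x₁, f₁) ∈ PiSet 𝕜 X ∧
        nu S = 1 ∧ ‖f₁ (S x₁)‖ = 1 ∧
        ‖S - T‖ < ε ∧ ‖x₁ - x₀‖ < ε ∧ ‖f₁ - f₀‖ < ε

/-- Property (nu). -/
def PropertyNu : Prop :=
  ∀ ε : ℝ, 0 < ε → ∃ η : ℝ, 0 < η ∧
    ∀ (T : X →L[𝕜] X) (x₀ : X) (f₀ : X →L[𝕜] 𝕜), ‖T‖ = 1 → ‖x₀‖ = 1 → ‖f₀‖ = 1 →
      1 - η < RCLike.re (f₀ x₀) → ‖f₀ (T x₀)‖ = 1 →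
      ∃ (S : X →L[𝕜] X) (x₁ : X) (f₁ : X →L[𝕜] 𝕜), ‖S‖ = 1 ∧ ‖x₁‖ = 1 ∧ ‖f₁‖ = 1 ∧
        ‖f₁ (S x₁)‖ = 1 ∧ f₁ x₁ = 1 ∧
        ‖x₁ - x₀‖ < ε ∧ ‖f₁ - f₀‖ < ε ∧ ‖S - T‖ < ε

end Pool.Agent.R509NU
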