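import Mathlib
import Pool.Agent.R509NU.Defs

/-!
A uniformly convex and uniformly smooth complex Banach space (both of power type two) in which the
numerical radius dominates a multiple of the norm has the BPBp-nu (after Kim, Lee and Martin).
-/

namespace Pool.Agent.R509NU

open Filter Topology

variable {X : Type*} [NormedAddCommGroup X] [NormedSpace ℂ X]

lemma nu_bddAbove (T : X →L[ℂ] X) :
    BddAbove {r : ℝ | ∃ p ∈ PiSet ℂ X, r = ‖p.2 (T p.1)‖} := by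
  refine ⟨‖T‖, ?_⟩
  rintro r ⟨p, ⟨h1, h2, -⟩, rfl⟩
  calc ‖p.2 (T p.1)‖ ≤ ‖p.2‖ * ‖T p.1‖ := p.2.le_opNorm _
    _ ≤ ‖p.2‖ * (‖T‖ * ‖p.1‖) := by gcongr; exact T.le_opNorm _
    _ = ‖T‖ := by rw [h1, h2]; ring

lemma le_nu (T : X →L[ℂ] X) {p : X × (X →L[ℂ] ℂ)} (hp : p ∈ PiSet ℂ X) :
    ‖p.2 (T p.1)‖ ≤ nu T := le_csSup (nu_bddAbove T) ⟨p, hp, rfl⟩

lemma piSet_nonempty [Nontrivial X] : (PiSet ℂ X).Nonempty := by
  obtain ⟨x, hx⟩ := exists_norm_eq X (zero_le_one' ℝ)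
  obtain ⟨f, hf1, hf2⟩ := exists_dual_vector ℂ x (by intro h; rw [h] at hx; simp at hx)
  refine ⟨(x, f), hx, hf1, ?_⟩
  rw [hf2, hx]; simp

lemma nu_set_nonempty [Nontrivial X] (T : X →L[ℂ] X) :
    {r : ℝ | ∃ p ∈ PiSet ℂ X, r = ‖p.2 (T p.1)‖}.Nonempty := by
  obtain ⟨p, hp⟩ := piSet_nonempty (X := X)
  exact ⟨_, p, hp, rfl⟩

lemma exists_near_nu [Nontrivial X] (T : X →L[ℂ] X) {e : ℝ} (he : 0 < e) :
    ∃ p ∈ PiSet ℂ X, nu T - e < ‖p.2 (T p.1)‖ := by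
  obtain ⟨r, ⟨p, hp, rfl⟩, h⟩ := exists_lt_of_lt_csSup (nu_set_nonempty T)
    (show nu T - e < sSup {r : ℝ | ∃ p ∈ PiSet ℂ X, r = ‖p.2 (T p.1)‖} from by
      change nu T - e < nu T; linarith)
  exact ⟨p, hp, h⟩

lemma nu_le_of_forall [Nontrivial X] (T : X →L[ℂ] X) {c : ℝ}
    (h : ∀ p ∈ PiSet ℂ X, ‖p.2 (T p.1)‖ ≤ c) : nu T ≤ c := by
  refine csSup_le (nu_set_nonempty T) ?_
  rintro r ⟨p, hp, rfl⟩
  exact h p hp

lemma norm_pair_le (T : X →L[ℂ] X) {p : X × (X →L[ℂ] ℂ)} (hp : p ∈ PiSet ℂ X) :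
    ‖p.2 (T p.1)‖ ≤ ‖T‖ := by
  obtain ⟨h1, h2, -⟩ := hp
  calc ‖p.2 (T p.1)‖ ≤ ‖p.2‖ * ‖T p.1‖ := p.2.le_opNorm _
    _ ≤ ‖p.2‖ * (‖T‖ * ‖p.1‖) := by gcongr; exact T.le_opNorm _
    _ = ‖T‖ := by rw [h1, h2]; ring

lemma nu_le_add [Nontrivial X] (S T : X →L[ℂ] X) : nu S ≤ nu T + ‖S - T‖ := by
  refine nu_le_of_forall S fun p hp => ?_
  have h : p.2 (S p.1) = p.2 (T p.1) + p.2 ((S - T) p.1) := by
    rw [← map_add]; simp
  rw [h]
  refine (norm_add_le _ _).trans ?_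
  gcongr
  · exact le_nu T hp
  · exact norm_pair_le (S - T) hp

lemma nu_smul_pos [Nontrivial X] (T : X →L[ℂ] X) {c : ℝ} (hc : 0 < c) :
    nu ((c : ℂ) • T) = c * nu T := by
  apply le_antisymm
  · refine nu_le_of_forall _ fun p hp => ?_
    have : p.2 (((c : ℂ) • T) p.1) = (c : ℂ) * p.2 (T p.1) := by simp
    rw [this, norm_mul, Complex.norm_real, Real.norm_of_nonneg hc.le]
    exact mul_le_mul_of_nonneg_left (le_nu T hp) hc.le
  · have h : nu T ≤ (1 / c) * nu ((c : ℂ) • T) := by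
      refine nu_le_of_forall _ fun p hp => ?_
      have h1 := le_nu ((c : ℂ) • T) hp
      have : p.2 (((c : ℂ) • T) p.1) = (c : ℂ) * p.2 (T p.1) := by simp
      rw [this, norm_mul, Complex.norm_real, Real.norm_of_nonneg hc.le] at h1
      rw [div_mul_eq_mul_div, one_mul, le_div_iff₀ hc]
      linarith
    rw [div_mul_eq_mul_div, one_mul, le_div_iff₀ hc] at h
    linarith

/-- Uniform convexity of power type two. -/
def UC (X : Type*) [NormedAddCommGroup X] (κ : ℝ) : Prop :=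
  ∀ x y : X, ‖x‖ = 1 → ‖y‖ = 1 → ‖x - y‖ ^ 2 ≤ κ * (2 - ‖x + y‖)

/-- Uniform smoothness of power type two. -/
def US (X : Type*) [NormedAddCommGroup X] (K : ℝ) : Prop :=
  ∀ x h : X, ‖x‖ = 1 → ‖x + h‖ + ‖x - h‖ ≤ 2 + K * ‖h‖ ^ 2

/-- In a uniformly smooth space, functionals nearly norming the same point are close. -/
lemma functional_close {K : ℝ} (hK : 0 < K) (hus : US X K) {x : X} {f g : X →L[ℂ] ℂ}
    (hx : ‖x‖ = 1) (hf : ‖f‖ = 1) (hg : ‖g‖ = 1) {γ : ℝ} (hγ : 0 < γ)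
    (h : 2 - γ ≤ (f x).re + (g x).re) :
    ‖f - g‖ ≤ 2 * Real.sqrt (K * γ) := by
  refine ContinuousLinearMap.opNorm_le_of_unit_norm (by positivity) fun v hv => ?_
  -- rotate v so that (f - g) v is real nonnegative
  obtain ⟨u, hu1, hu2⟩ : ∃ u : ℂ, ‖u‖ = 1 ∧ u * (f - g) v = (‖(f - g) v‖ : ℂ) := by
    by_cases h0 : (f - g) v = 0
    · exact ⟨1, by simp, by rw [h0]; simp⟩
    · refine ⟨(starRingEnd ℂ) ((f - g) v) / ‖(f - g) v‖, ?_, ?_⟩
      · rw [norm_div, Complex.norm_conj, Complex.norm_real, norm_norm]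
        exact div_self (by simpa using h0)
      · rw [div_mul_eq_mul_div, mul_comm ((starRingEnd ℂ) _), Complex.mul_conj,
          Complex.normSq_eq_norm_sq]
        have : (‖(f - g) v‖ : ℂ) ≠ 0 := by simpa using h0
        push_cast
        field_simp
  set w := u • v with hw
  have hwn : ‖w‖ = 1 := by rw [hw, norm_smul, hu1, hv, one_mul]
  have hval : (f w).re - (g w).re = ‖(f - g) v‖ := by
    have : f w - g w = (‖(f - g) v‖ : ℂ) := by
      rw [← hu2, hw, map_smul, map_smul, ContinuousLinearMap.sub_apply]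
      simp only [smul_eq_mul]; ring
    have := congrArg Complex.re this
    simpa using this
  set t := Real.sqrt (γ / K) with ht
  have htpos : 0 < t := Real.sqrt_pos.2 (by positivity)
  have ht2 : t ^ 2 = γ / K := Real.sq_sqrt (by positivity)
  have h1 : (f (x + (t : ℂ) • w)).re ≤ ‖x + (t : ℂ) • w‖ := by
    calc _ ≤ ‖f (x + (t : ℂ) • w)‖ := Complex.re_le_norm _
      _ ≤ ‖f‖ * ‖x + (t : ℂ) • w‖ := f.le_opNorm _
      _ = _ := by rw [hf, one_mul]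
  have h2 : (g (x - (t : ℂ) • w)).re ≤ ‖x - (t : ℂ) • w‖ := by
    calc _ ≤ ‖g (x - (t : ℂ) • w)‖ := Complex.re_le_norm _
      _ ≤ ‖g‖ * ‖x - (t : ℂ) • w‖ := g.le_opNorm _
      _ = _ := by rw [hg, one_mul]
  have h3 := hus x ((t : ℂ) • w) hx
  have h4 : ‖(t : ℂ) • w‖ ^ 2 = t ^ 2 := by
    rw [norm_smul, Complex.norm_real, hwn, mul_one, Real.norm_eq_abs, sq_abs]
  rw [h4, ht2] at h3
  have h5 : K * (γ / K) = γ := by field_simp
  rw [h5] at h3
  simp only [map_add, map_sub, map_smul, smul_eq_mul, Complex.add_re, Complex.sub_re,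
    Complex.re_ofReal_mul] at h1 h2
  have h6 : t * ‖(f - g) v‖ ≤ 2 * γ := by
    rw [← hval]; nlinarith
  have h7 : Real.sqrt (K * γ) * t = γ := by
    rw [ht, ← Real.sqrt_mul (by positivity)]
    have : K * γ * (γ / K) = γ ^ 2 := by field_simp
    rw [this, Real.sqrt_sq hγ.le]
  by_contra hcon
  push Not at hcon
  have : t * (2 * Real.sqrt (K * γ)) < t * ‖(f - g) v‖ := mul_lt_mul_of_pos_left hcon htpos
  nlinarith

end Pool.Agent.R509NU
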