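import Mathlib
import Pool.Agent.R509NU.General

namespace Pool.Agent.R509NU

open Filter Topology

variable {X : Type*} [NormedAddCommGroup X] [NormedSpace ℂ X]

lemma exists_unit_mul (z : ℂ) : ∃ u : ℂ, ‖u‖ = 1 ∧ u * z = (‖z‖ : ℂ) := by
  by_cases h0 : z = 0
  · exact ⟨1, by simp, by rw [h0]; simp⟩
  · refine ⟨(starRingEnd ℂ) z / ‖z‖, ?_, ?_⟩
    · rw [norm_div, Complex.norm_conj, Complex.norm_real, norm_norm]
      exact div_self (by simpa using h0)
    · rw [div_mul_eq_mul_div, mul_comm ((starRingEnd ℂ) _), Complex.mul_conj,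
        Complex.normSq_eq_norm_sq]
      have : (‖z‖ : ℂ) ≠ 0 := by simpa using h0
      push_cast
      field_simp

lemma step [Nontrivial X] {κ K : ℝ} (hκ : 0 < κ) (hK : 0 < K) (huc : UC X κ) (hus : US X K) :
    ∃ C : ℝ, 0 < C ∧ ∀ (e : ℝ), 0 < e → e ≤ 1 → ∀ (T : X →L[ℂ] X) (p : X × (X →L[ℂ] ℂ)),
      p ∈ PiSet ℂ X → nu T - e ^ 5 ≤ ‖p.2 (T p.1)‖ →
      ∃ (T' : X →L[ℂ] X) (p' : X × (X →L[ℂ] ℂ)), p' ∈ PiSet ℂ X ∧
        nu T' - (e / 2) ^ 5 ≤ ‖p'.2 (T' p'.1)‖ ∧ ‖T' - T‖ ≤ C * e ∧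
        ‖p'.1 - p.1‖ ≤ C * e ∧ ‖p'.2 - p.2‖ ≤ C * e := by
  set s := Real.sqrt (2 * κ) with hs
  have hspos : 0 < s := Real.sqrt_pos.2 (by positivity)
  refine ⟨1 + s + 2 * Real.sqrt (K * s), by positivity, ?_⟩
  intro e he he1 T p hp hnear
  obtain ⟨x, f⟩ := p
  obtain ⟨hx, hf, hfx⟩ := hp
  simp only at hx hf hfx hnear
  -- the direction
  obtain ⟨u, hu1, hu2⟩ := exists_unit_mul (f (T x))
  set l : ℂ := (starRingEnd ℂ) u with hl
  have hlu : l * u = 1 := by
    rw [hl, mul_comm, Complex.mul_conj, Complex.normSq_eq_norm_sq, hu1]; simp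
  have hl1 : ‖l‖ = 1 := by rw [hl, Complex.norm_conj, hu1]
  have hζ : f (T x) = l * (‖f (T x)‖ : ℂ) := by
    rw [← hu2, ← mul_assoc, hlu, one_mul]
  set R : X →L[ℂ] X := ContinuousLinearMap.smulRight f x with hR
  have hRv : ∀ v, R v = f v • x := fun v => rfl
  have hRn : ‖R‖ ≤ 1 := by
    refine ContinuousLinearMap.opNorm_le_bound _ zero_le_one fun v => ?_
    rw [hRv, norm_smul, hx, mul_one, one_mul]
    calc ‖f v‖ ≤ ‖f‖ * ‖v‖ := f.le_opNorm v
      _ = ‖v‖ := by rw [hf, one_mul]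
  set T' : X →L[ℂ] X := T + (l * (e : ℂ)) • R with hT'
  have hle : ‖l * (e : ℂ)‖ = e := by
    rw [norm_mul, hl1, one_mul, Complex.norm_real, Real.norm_of_nonneg he.le]
  have hTT : ‖T' - T‖ ≤ e := by
    rw [hT', add_sub_cancel_left, norm_smul, hle]
    calc e * ‖R‖ ≤ e * 1 := by gcongr
      _ = e := mul_one e
  have hT'v : ∀ v, T' v = T v + (l * (e : ℂ)) • (f v • x) := fun v => rfl
  have hval : ‖f (T' x)‖ = ‖f (T x)‖ + e := by
    rw [hT'v, map_add, map_smul, map_smul, hfx]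
    simp only [smul_eq_mul, mul_one]
    rw [hζ, ← mul_add, norm_mul, hl1, one_mul]
    rw [norm_mul, hl1, one_mul, Complex.norm_real, norm_norm, ← Complex.ofReal_add,
      Complex.norm_real, Real.norm_of_nonneg (by positivity)]
  have hnuT' : nu T - e ^ 5 + e ≤ nu T' := by
    have := le_nu T' (p := (x, f)) ⟨hx, hf, hfx⟩
    simp only at this
    linarith
  obtain ⟨⟨y, g⟩, hq, hqn⟩ := exists_near_nu T' (show 0 < (e / 2) ^ 5 by positivity)
  obtain ⟨hy, hg, hgy⟩ := hq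
  simp only at hy hg hgy hqn
  have hc1 : ‖f y‖ ≤ 1 := by
    calc ‖f y‖ ≤ ‖f‖ * ‖y‖ := f.le_opNorm y
      _ = 1 := by rw [hf, hy, one_mul]
  have hc2 : ‖g x‖ ≤ 1 := by
    calc ‖g x‖ ≤ ‖g‖ * ‖x‖ := g.le_opNorm x
      _ = 1 := by rw [hg, hx, one_mul]
  have hup : ‖g (T' y)‖ ≤ nu T + e * (‖f y‖ * ‖g x‖) := by
    rw [hT'v, map_add, map_smul, map_smul]
    refine (norm_add_le _ _).trans ?_
    have h1 := le_nu T (p := (y, g)) ⟨hy, hg, hgy⟩
    simp only at h1
    have h2 : ‖(l * (e : ℂ)) • f y • g x‖ = e * (‖f y‖ * ‖g x‖) := by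
      rw [norm_smul, norm_smul, hle]
    rw [h2]; linarith
  have hb : (e / 2) ^ 5 ≤ e ^ 5 := by
    apply pow_le_pow_left₀ (by positivity); linarith
  have hprod : 1 - 2 * e ^ 4 ≤ ‖f y‖ * ‖g x‖ := by
    have h1 : nu T - e ^ 5 + e - e ^ 5 ≤ nu T + e * (‖f y‖ * ‖g x‖) := by linarith
    have h2 : e * (1 - 2 * e ^ 4) ≤ e * (‖f y‖ * ‖g x‖) := by nlinarith
    exact le_of_mul_le_mul_left h2 he
  have hfy : 1 - 2 * e ^ 4 ≤ ‖f y‖ := by
    refine hprod.trans ?_
    calc ‖f y‖ * ‖g x‖ ≤ ‖f y‖ * 1 := by gcongr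
      _ = _ := mul_one _
  obtain ⟨w, hw1, hw2⟩ := exists_unit_mul (f y)
  have hwc : (starRingEnd ℂ) w * w = 1 := by
    rw [mul_comm, Complex.mul_conj, Complex.normSq_eq_norm_sq, hw1]; simp
  refine ⟨T', (w • y, (starRingEnd ℂ) w • g), ⟨?_, ?_, ?_⟩, ?_, ?_, ?_, ?_⟩
  · simp only [norm_smul, hw1, hy, one_mul]
  · simp only [norm_smul, Complex.norm_conj, hw1, hg, one_mul]
  · simp only [ContinuousLinearMap.smul_apply, map_smul, smul_eq_mul, hgy, mul_one]
    rw [mul_comm]; exact hwc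
  · simp only [ContinuousLinearMap.smul_apply, map_smul, smul_eq_mul, norm_mul,
      Complex.norm_conj, hw1, one_mul]
    exact hqn.le
  · have : 0 ≤ s * e + 2 * Real.sqrt (K * s) * e := by positivity
    linarith
  all_goals
    have hd : ‖w • y - x‖ ≤ s * e ^ 2 := by
      have h1 : 2 - 2 * e ^ 4 ≤ ‖x + w • y‖ := by
        have h2 : ‖f (x + w • y)‖ ≤ ‖x + w • y‖ := by
          calc _ ≤ ‖f‖ * ‖x + w • y‖ := f.le_opNorm _
            _ = _ := by rw [hf, one_mul]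
        have h3 : f (x + w • y) = ((1 + ‖f y‖ : ℝ) : ℂ) := by
          rw [map_add, map_smul, hfx, smul_eq_mul, hw2]; push_cast; ring
        rw [h3, Complex.norm_real, Real.norm_of_nonneg (by positivity)] at h2
        linarith
      have h4 := huc x (w • y) hx (by rw [norm_smul, hw1, hy, one_mul])
      have h5 : ‖x - w • y‖ ^ 2 ≤ (s * e ^ 2) ^ 2 := by
        have : (s * e ^ 2) ^ 2 = 2 * κ * e ^ 4 := by
          rw [mul_pow, hs, Real.sq_sqrt (by positivity)]; ring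
        rw [this]
        nlinarith
      rw [norm_sub_rev]
      exact (pow_le_pow_iff_left₀ (norm_nonneg _) (by positivity) two_ne_zero).1 h5
  · have he2 : e ^ 2 ≤ e := by nlinarith
    simp only
    calc ‖w • y - x‖ ≤ s * e ^ 2 := hd
      _ ≤ s * e := by gcongr
      _ ≤ _ := by
        have : 0 ≤ 1 * e + 2 * Real.sqrt (K * s) * e := by positivity
        linarith
  · simp only
    set g' : X →L[ℂ] ℂ := (starRingEnd ℂ) w • g with hg'
    have hg'n : ‖g'‖ = 1 := by rw [hg', norm_smul, Complex.norm_conj, hw1, hg, one_mul]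
    have hg'y : g' (w • y) = 1 := by
      rw [hg']
      simp only [ContinuousLinearMap.smul_apply, map_smul, smul_eq_mul, hgy, mul_one]
      rw [mul_comm]; exact hwc
    have hre : 1 - s * e ^ 2 ≤ (g' x).re := by
      have h1 : g' x = 1 - g' (w • y - x) := by rw [map_sub, hg'y]; ring
      have h2 : ‖g' (w • y - x)‖ ≤ s * e ^ 2 := by
        calc _ ≤ ‖g'‖ * ‖w • y - x‖ := g'.le_opNorm _
          _ = ‖w • y - x‖ := by rw [hg'n, one_mul]
          _ ≤ _ := hd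
      have h3 := Complex.re_le_norm (g' (w • y - x))
      rw [h1, Complex.sub_re, Complex.one_re]
      linarith
    have h := functional_close hK hus hx hg'n hf (γ := s * e ^ 2) (by positivity) (by
      rw [hfx, Complex.one_re]; linarith)
    have h2 : Real.sqrt (K * (s * e ^ 2)) = Real.sqrt (K * s) * e := by
      rw [← mul_assoc, Real.sqrt_mul (by positivity), Real.sqrt_sq he.le]
    rw [h2] at h
    have : 0 ≤ 1 * e + s * e := by positivity
    linarith

lemma continuous_nu [Nontrivial X] : Continuous (nu : (X →L[ℂ] X) → ℝ) := by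
  refine (LipschitzWith.of_dist_le_mul (K := 1) fun S T => ?_).continuous
  rw [Real.dist_eq, dist_eq_norm, NNReal.coe_one, one_mul, abs_le]
  have h1 := nu_le_add S T
  have h2 := nu_le_add T S
  rw [norm_sub_rev] at h2
  constructor <;> linarith

theorem bpb_of_uc_us [Nontrivial X] [CompleteSpace X] {κ K c : ℝ} (hκ : 0 < κ) (hK : 0 < K)
    (hc : 0 < c) (huc : UC X κ) (hus : US X K) (hni : ∀ T : X →L[ℂ] X, ‖T‖ ≤ c * nu T) :
    BPBpNu ℂ X := by
  obtain ⟨C, hC, hstep⟩ := step hκ hK huc hus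
  intro ε hε
  set e₀ : ℝ := min 1 (min (1 / (4 * C)) (ε / (4 * C * (1 + c)))) with he₀
  have he₀pos : 0 < e₀ := by
    apply lt_min one_pos (lt_min (by positivity) (by positivity))
  have he₀1 : e₀ ≤ 1 := min_le_left _ _
  have he₀2 : e₀ ≤ 1 / (4 * C) := (min_le_right _ _).trans (min_le_left _ _)
  have he₀3 : e₀ ≤ ε / (4 * C * (1 + c)) := (min_le_right _ _).trans (min_le_right _ _)
  have hD1 : 2 * C * e₀ ≤ 1 / 2 := by
    rw [le_div_iff₀ (by positivity)] at he₀2; linarith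
  have hD2 : 2 * C * e₀ * (1 + c) ≤ ε / 2 := by
    rw [le_div_iff₀ (by positivity)] at he₀3; linarith
  have hD3 : 2 * C * e₀ < ε := by
    have : 0 ≤ 2 * C * e₀ * c := by positivity
    linarith
  refine ⟨e₀ ^ 5, by positivity, ?_⟩
  intro T x₀ f₀ hT hp₀ hnear
  -- the sequence
  let St := (X →L[ℂ] X) × X × (X →L[ℂ] ℂ)
  let Good : ℕ → St → Prop := fun k s =>
    (s.2.1, s.2.2) ∈ PiSet ℂ X ∧ nu s.1 - (e₀ / 2 ^ k) ^ 5 ≤ ‖s.2.2 (s.1 s.2.1)‖
  have hex : ∀ (k : ℕ) (s : St), ∃ s' : St, Good k s →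
      (Good (k + 1) s' ∧ dist s s' ≤ (2 * C * e₀) / 2 / 2 ^ k) := by
    intro k s
    by_cases hg : Good k s
    · obtain ⟨hg1, hg2⟩ := hg
      have he1 : 0 < e₀ / 2 ^ k := by positivity
      have he2 : e₀ / 2 ^ k ≤ 1 := by
        have : (1:ℝ) ≤ 2 ^ k := one_le_pow₀ one_le_two
        exact (div_le_self he₀pos.le this).trans he₀1
      obtain ⟨T', p', hp', h1, h2, h3, h4⟩ := hstep _ he1 he2 s.1 (s.2.1, s.2.2) hg1 hg2
      refine ⟨(T', p'.1, p'.2), fun _ => ⟨⟨hp', ?_⟩, ?_⟩⟩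
      · have : e₀ / 2 ^ (k + 1) = e₀ / 2 ^ k / 2 := by rw [pow_succ]; field_simp
        rw [this]; exact h1
      · have hCe : C * (e₀ / 2 ^ k) = (2 * C * e₀) / 2 / 2 ^ k := by field_simp
        rw [← hCe, Prod.dist_eq, Prod.dist_eq]
        refine max_le ?_ (max_le ?_ ?_)
        · rw [dist_comm, dist_eq_norm]; exact h2
        · rw [dist_comm, dist_eq_norm]; exact h3
        · rw [dist_comm, dist_eq_norm]; exact h4
    · exact ⟨s, fun h => absurd h hg⟩
  choose nxt hnxt using hex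
  let s : ℕ → St := fun k => Nat.rec ((T, x₀, f₀) : St) (fun k s => nxt k s) k
  have hs0 : s 0 = (T, x₀, f₀) := rfl
  have hsucc : ∀ k, s (k + 1) = nxt k (s k) := fun k => rfl
  have hgood : ∀ k, Good k (s k) := by
    intro k
    induction k with
    | zero =>
      rw [hs0]
      refine ⟨hp₀, ?_⟩
      simp only [pow_zero, div_one]
      rw [hT]; exact hnear.le
    | succ k ih => rw [hsucc]; exact (hnxt k (s k) ih).1
  have hdist : ∀ k, dist (s k) (s (k + 1)) ≤ (2 * C * e₀) / 2 / 2 ^ k := by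
    intro k; rw [hsucc]; exact (hnxt k (s k) (hgood k)).2
  obtain ⟨a, ha⟩ := cauchySeq_tendsto_of_complete (cauchySeq_of_le_geometric_two hdist)
  have hda : dist (s 0) a ≤ 2 * C * e₀ := dist_le_of_le_geometric_two_of_tendsto₀ hdist ha
  obtain ⟨S, x, f⟩ := a
  have hlim1 : ‖x‖ = 1 := by
    have h1 : Tendsto (fun k => ‖(s k).2.1‖) atTop (𝓝 ‖x‖) :=
      ((continuous_fst.comp continuous_snd).norm.tendsto _).comp ha
    refine tendsto_nhds_unique h1 ?_
    have : (fun k => ‖(s k).2.1‖) = fun _ => (1:ℝ) := funext fun k => (hgood k).1.1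
    rw [this]; exact tendsto_const_nhds
  have hlim2 : ‖f‖ = 1 := by
    have h1 : Tendsto (fun k => ‖(s k).2.2‖) atTop (𝓝 ‖f‖) :=
      ((continuous_snd.comp continuous_snd).norm.tendsto _).comp ha
    refine tendsto_nhds_unique h1 ?_
    have : (fun k => ‖(s k).2.2‖) = fun _ => (1:ℝ) := funext fun k => (hgood k).1.2.1
    rw [this]; exact tendsto_const_nhds
  have hlim3 : f x = 1 := by
    have hcont : Continuous fun s : St => s.2.2 s.2.1 :=
      (continuous_snd.comp continuous_snd).clm_apply (continuous_fst.comp continuous_snd)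
    have h1 : Tendsto (fun k => (s k).2.2 (s k).2.1) atTop (𝓝 (f x)) :=
      (hcont.tendsto _).comp ha
    refine tendsto_nhds_unique h1 ?_
    have : (fun k => (s k).2.2 (s k).2.1) = fun _ => (1:ℂ) := funext fun k => (hgood k).1.2.2
    rw [this]; exact tendsto_const_nhds
  have hpi : (x, f) ∈ PiSet ℂ X := ⟨hlim1, hlim2, hlim3⟩
  have hlim4 : nu S ≤ ‖f (S x)‖ := by
    have hcont : Continuous fun s : St => ‖s.2.2 (s.1 s.2.1)‖ :=
      ((continuous_snd.comp continuous_snd).clm_apply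
        (continuous_fst.clm_apply (continuous_fst.comp continuous_snd))).norm
    have h1 : Tendsto (fun k => ‖(s k).2.2 ((s k).1 (s k).2.1)‖) atTop (𝓝 ‖f (S x)‖) :=
      (hcont.tendsto _).comp ha
    have h2 : Tendsto (fun k => nu (s k).1) atTop (𝓝 (nu S)) :=
      ((continuous_nu.comp continuous_fst).tendsto _).comp ha
    have h3 : Tendsto (fun k : ℕ => (e₀ / 2 ^ k) ^ 5) atTop (𝓝 0) := by
      have : Tendsto (fun k : ℕ => e₀ / 2 ^ k) atTop (𝓝 0) := by
        have h := (tendsto_pow_atTop_nhds_zero_of_lt_one (by norm_num : (0:ℝ) ≤ 1/2)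
          (by norm_num)).const_mul e₀
        rw [mul_zero] at h
        refine h.congr fun k => ?_
        rw [one_div, inv_pow]; rfl
      have h := this.pow 5
      simpa using h
    have h4 := h2.sub h3
    rw [sub_zero] at h4
    exact le_of_tendsto_of_tendsto' h4 h1 fun k => (hgood k).2
  have hnuS : nu S = ‖f (S x)‖ := le_antisymm hlim4 (le_nu S hpi)
  rw [hs0, Prod.dist_eq, Prod.dist_eq] at hda
  have hdS : ‖S - T‖ ≤ 2 * C * e₀ := by
    rw [← dist_eq_norm, dist_comm]; exact (le_max_left _ _).trans hda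
  have hdx : ‖x - x₀‖ ≤ 2 * C * e₀ := by
    rw [← dist_eq_norm, dist_comm]
    exact ((le_max_left _ _).trans (le_max_right _ _)).trans hda
  have hdf : ‖f - f₀‖ ≤ 2 * C * e₀ := by
    rw [← dist_eq_norm, dist_comm]
    exact ((le_max_right _ _).trans (le_max_right _ _)).trans hda
  have hnu1 : |nu S - 1| ≤ 2 * C * e₀ := by
    rw [← hT, abs_le]
    have h1 := nu_le_add S T
    have h2 := nu_le_add T S
    rw [norm_sub_rev] at h2
    constructor <;> linarith
  have hnupos : 1 / 2 ≤ nu S := by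
    have := (abs_le.1 hnu1).1; linarith
  have hnupos' : 0 < nu S := by linarith
  refine ⟨(((nu S)⁻¹ : ℝ) : ℂ) • S, x, f, hpi, ?_, ?_, ?_, ?_, ?_⟩
  · rw [nu_smul_pos S (inv_pos.2 hnupos')]
    exact inv_mul_cancel₀ hnupos'.ne'
  · have : f (((((nu S)⁻¹ : ℝ) : ℂ) • S) x) = (((nu S)⁻¹ : ℝ) : ℂ) * f (S x) := by simp
    rw [this, norm_mul, Complex.norm_real, Real.norm_of_nonneg (inv_nonneg.2 hnupos'.le), ← hnuS]
    exact inv_mul_cancel₀ hnupos'.ne'
  · have h1 : (((nu S)⁻¹ : ℝ) : ℂ) • S - T = (S - T) + ((((nu S)⁻¹ - 1 : ℝ)) : ℂ) • S := by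
      push_cast; module
    rw [h1]
    have h2 : ‖((((nu S)⁻¹ - 1 : ℝ)) : ℂ) • S‖ ≤ 2 * C * e₀ * c := by
      rw [norm_smul, Complex.norm_real, Real.norm_eq_abs]
      have h3 : (nu S)⁻¹ - 1 = (1 - nu S) * (nu S)⁻¹ := by field_simp
      rw [h3, abs_mul, abs_of_pos (inv_pos.2 hnupos')]
      calc |1 - nu S| * (nu S)⁻¹ * ‖S‖ ≤ |1 - nu S| * (nu S)⁻¹ * (c * nu S) := by
            gcongr; exact hni S
        _ = |1 - nu S| * c := by field_simp
        _ ≤ 2 * C * e₀ * c := by rw [abs_sub_comm]; gcongr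
    calc _ ≤ ‖S - T‖ + ‖((((nu S)⁻¹ - 1 : ℝ)) : ℂ) • S‖ := norm_add_le _ _
      _ ≤ 2 * C * e₀ + 2 * C * e₀ * c := by gcongr
      _ < ε := by linarith
  · exact hdx.trans_lt hD3
  · exact hdf.trans_lt hD3

end Pool.Agent.R509NU
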