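import Mathlib
import Pool.Agent.R509NU.Block

namespace Pool.Agent.R509NU

open Real

/-- the vector `(0, ζ)` -/
noncomputable def vv (ζ : ℂ) : E2 := !₂[0, ζ]

@[simp] lemma vv_zero (ζ : ℂ) : vv ζ 0 = 0 := by simp [vv]
@[simp] lemma vv_one (ζ : ℂ) : vv ζ 1 = ζ := by simp [vv]

lemma norm_vv (ζ : ℂ) : ‖vv ζ‖ = ‖ζ‖ := by
  have h : ‖vv ζ‖ ^ 2 = ‖ζ‖ ^ 2 := by rw [nsq]; simp
  exact (pow_left_inj₀ (norm_nonneg _) (norm_nonneg _) two_ne_zero).1 h

lemma approx {n : ℝ} (hn : 1 ≤ n) (x : E2) (h0 : ‖x 0 - 1‖ ≤ 1 / 1000) (h1 : ‖x 1‖ ≤ 1 / 1000)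
    (ζ : ℂ) (hζ : ‖ζ‖ ≤ 1 / 1000) (hnζ : n * ‖ζ‖ ≤ 4) :
    |n ^ 2 * q n (x + vv ζ) - A (n * (bb x / ‖x‖ ^ 2) + n * ζ.re)| ≤ 8 / 100 := by
  have hn0 : (0:ℝ) < n := by linarith
  set r := ‖x‖ ^ 2 with hr
  set r' := ‖x + vv ζ‖ ^ 2 with hr'
  set b := bb x with hb
  have er : r = ‖x 0‖ ^ 2 + ‖x 1‖ ^ 2 := nsq x
  have er' : r' = ‖x 0‖ ^ 2 + ‖x 1 + ζ‖ ^ 2 := by rw [hr', nsq]; simp
  have eb' : bb (x + vv ζ) = b + (ζ * (starRingEnd ℂ) (x 0)).re := by
    simp only [bb, hb, PiLp.add_apply, vv_zero, vv_one, add_zero, add_mul, Complex.add_re]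
  have x0u : ‖x 0‖ ≤ 1001 / 1000 := by
    calc ‖x 0‖ = ‖(x 0 - 1) + 1‖ := by ring_nf
      _ ≤ ‖x 0 - 1‖ + ‖(1:ℂ)‖ := norm_add_le _ _
      _ ≤ 1001 / 1000 := by rw [norm_one]; linarith
  have x0l : 999 / 1000 ≤ ‖x 0‖ := by
    have : ‖(1:ℂ)‖ ≤ ‖x 0‖ + ‖x 0 - 1‖ := by
      calc ‖(1:ℂ)‖ = ‖x 0 - (x 0 - 1)‖ := by ring_nf
        _ ≤ _ := norm_sub_le _ _
    rw [norm_one] at this; linarith
  have hz0 := norm_nonneg ζ
  have hx1 := norm_nonneg (x 1)
  have hsum : ‖x 1 + ζ‖ ≤ 2 / 1000 := (norm_add_le _ _).trans (by linarith)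
  have hsum0 := norm_nonneg (x 1 + ζ)
  have r_l : 998 / 1000 ≤ r := by rw [er]; nlinarith
  have r_u : r ≤ 1003 / 1000 := by rw [er]; nlinarith
  have r'_l : 998 / 1000 ≤ r' := by rw [er']; nlinarith
  have r'_u : r' ≤ 1003 / 1000 := by rw [er']; nlinarith
  have b_u : |b| ≤ 11 / 10000 := by
    refine (abs_re_le _ _).trans ?_
    nlinarith
  have drr : |r - r'| ≤ 3 / 1000 * ‖ζ‖ := by
    have : r - r' = -(2 * (ζ * (starRingEnd ℂ) (x 1)).re + ‖ζ‖ ^ 2) := by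
      rw [er, er']
      simp only [Complex.sq_norm, Complex.normSq_apply, Complex.add_re, Complex.add_im,
        Complex.mul_re, Complex.conj_re, Complex.conj_im]
      ring
    rw [this, abs_neg]
    have e := abs_re_le ζ (x 1)
    rw [abs_le] at e ⊢
    constructor <;> nlinarith
  have dre : |(ζ * (starRingEnd ℂ) (x 0)).re - ζ.re| ≤ 1 / 1000 * ‖ζ‖ := by
    have : (ζ * (starRingEnd ℂ) (x 0)).re - ζ.re = (ζ * (starRingEnd ℂ) (x 0 - 1)).re := by
      simp only [map_sub, map_one, mul_sub, mul_one, Complex.sub_re]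
    rw [this]
    refine (abs_re_le _ _).trans ?_
    nlinarith
  have hζre : |ζ.re| ≤ ‖ζ‖ := Complex.abs_re_le_norm ζ
  have d2 : |(ζ * (starRingEnd ℂ) (x 0)).re - r' * ζ.re| ≤ 4 / 1000 * ‖ζ‖ := by
    have e : (ζ * (starRingEnd ℂ) (x 0)).re - r' * ζ.re
        = ((ζ * (starRingEnd ℂ) (x 0)).re - ζ.re) + (1 - r') * ζ.re := by ring
    rw [e]
    refine (abs_add_le _ _).trans ?_
    rw [abs_mul]
    have h1r : |1 - r'| ≤ 3 / 1000 := by rw [abs_le]; constructor <;> linarith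
    have : |1 - r'| * |ζ.re| ≤ 3 / 1000 * ‖ζ‖ := by gcongr
    linarith
  have r'pos : 0 < r' := by linarith
  have rpos : 0 < r := by linarith
  have dθ : |bb (x + vv ζ) / r' - (b / r + ζ.re)| ≤ 5 / 1000 * ‖ζ‖ := by
    rw [eb']
    have e : (b + (ζ * (starRingEnd ℂ) (x 0)).re) / r' - (b / r + ζ.re)
        = (b * (r - r') + r * ((ζ * (starRingEnd ℂ) (x 0)).re - r' * ζ.re)) / (r * r') := by
      field_simp; ring
    rw [e, abs_div, abs_of_pos (by positivity : 0 < r * r'), div_le_iff₀ (by positivity)]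
    refine (abs_add_le _ _).trans ?_
    rw [abs_mul, abs_mul, abs_of_pos rpos]
    have k1 : |b| * |r - r'| ≤ 11 / 10000 * (3 / 1000 * ‖ζ‖) := by gcongr
    have k2 : r * |(ζ * (starRingEnd ℂ) (x 0)).re - r' * ζ.re| ≤ 1003 / 1000 * (4 / 1000 * ‖ζ‖) := by
      gcongr
    have k3 : (998 / 1000) * (998 / 1000) ≤ r * r' := by gcongr
    nlinarith
  have eq : n ^ 2 * q n (x + vv ζ) = r' * A (n * (bb (x + vv ζ) / r')) := by
    unfold q
    rw [← hr']
    field_simp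
  rw [eq]
  have hA := A_lip (n * (bb (x + vv ζ) / r')) (n * (b / r) + n * ζ.re)
  have hA2 : |n * (bb (x + vv ζ) / r') - (n * (b / r) + n * ζ.re)| ≤ 20 / 1000 := by
    have e : n * (bb (x + vv ζ) / r') - (n * (b / r) + n * ζ.re)
        = n * (bb (x + vv ζ) / r' - (b / r + ζ.re)) := by ring
    rw [e, abs_mul, abs_of_pos hn0]
    calc n * |bb (x + vv ζ) / r' - (b / r + ζ.re)| ≤ n * (5 / 1000 * ‖ζ‖) := by gcongr
      _ = 5 / 1000 * (n * ‖ζ‖) := by ring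
      _ ≤ 5 / 1000 * 4 := by gcongr
      _ = _ := by norm_num
  have hA3 := abs_A_le (n * (bb (x + vv ζ) / r'))
  have e2 : r' * A (n * (bb (x + vv ζ) / r')) - A (n * (b / r) + n * ζ.re)
      = (r' - 1) * A (n * (bb (x + vv ζ) / r'))
        + (A (n * (bb (x + vv ζ) / r')) - A (n * (b / r) + n * ζ.re)) := by ring
  rw [e2]
  refine (abs_add_le _ _).trans ?_
  rw [abs_mul]
  have h1r : |r' - 1| ≤ 3 / 1000 := by rw [abs_le]; constructor <;> linarith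
  have : |r' - 1| * |A (n * (bb (x + vv ζ) / r'))| ≤ 3 / 1000 * 2 := by gcongr
  linarith

lemma A_osc (X : ℝ) : (1 ≤ |A (X + π) + A (X - π) - 2 * A X|) ∨
    (1 ≤ |A (X + π / 2) + A (X - π / 2) - 2 * A X|) := by
  have e1 : A (X + π) + A (X - π) - 2 * A X = -4 * cos X := by
    unfold A
    have : cos (2 * (X + π)) = cos (2 * X) := by
      rw [show 2 * (X + π) = 2 * X + 2 * π by ring, cos_add_two_pi]
    rw [this]
    have : cos (2 * (X - π)) = cos (2 * X) := by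
      rw [show 2 * (X - π) = 2 * X - 2 * π by ring, cos_sub_two_pi]
    rw [this, cos_add_pi, cos_sub_pi]
    ring
  have e2 : A (X + π / 2) + A (X - π / 2) - 2 * A X = 4 - 2 * cos X - 8 * cos X ^ 2 := by
    unfold A
    have : cos (2 * (X + π / 2)) = - cos (2 * X) := by
      rw [show 2 * (X + π / 2) = 2 * X + π by ring, cos_add_pi]
    rw [this]
    have : cos (2 * (X - π / 2)) = - cos (2 * X) := by
      rw [show 2 * (X - π / 2) = 2 * X - π by ring, cos_sub_pi]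
    rw [this, cos_add_pi_div_two, cos_sub_pi_div_two, cos_two_mul]
    ring
  by_cases h : 1 / 4 ≤ |cos X|
  · left
    rw [e1, abs_mul]
    norm_num
    linarith
  · right
    push Not at h
    rw [e2]
    have h1 := abs_lt.1 h
    refine le_trans ?_ (le_abs_self _)
    nlinarith [h1.1, h1.2]

lemma local_osc {n : ℝ} (hn : 10000 ≤ n) (x : E2) (h0 : ‖x 0 - 1‖ ≤ 1 / 1000)
    (h1 : ‖x 1‖ ≤ 1 / 1000) :
    ∃ η : ℝ, 0 < η ∧ n * η ≤ 4 ∧
      1 / (2 * n ^ 2) ≤ |q n (x + vv η) + q n (x - vv η)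
        - (q n (x + vv (Complex.I * η)) + q n (x - vv (Complex.I * η)))| := by
  have hn0 : (0:ℝ) < n := by linarith
  have hn1 : (1:ℝ) ≤ n := by linarith
  have main : ∀ a : ℝ, 0 < a → a ≤ 4 →
      1 ≤ |A (n * (bb x / ‖x‖ ^ 2) + a) + A (n * (bb x / ‖x‖ ^ 2) - a)
        - 2 * A (n * (bb x / ‖x‖ ^ 2))| →
      ∃ η : ℝ, 0 < η ∧ n * η ≤ 4 ∧
      1 / (2 * n ^ 2) ≤ |q n (x + vv η) + q n (x - vv η)
        - (q n (x + vv (Complex.I * η)) + q n (x - vv (Complex.I * η)))| := by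
    intro a ha ha4 hA
    refine ⟨a / n, by positivity, by rw [mul_div_cancel₀ _ hn0.ne']; exact ha4, ?_⟩
    set η : ℝ := a / n with hη
    have hηpos : 0 < η := by positivity
    have hnη : n * η = a := by rw [hη]; field_simp
    have hηs : η ≤ 1 / 1000 := by
      rw [hη, div_le_div_iff₀ hn0 (by norm_num)]; linarith
    have neg : ∀ ζ : ℂ, x - vv ζ = x + vv (-ζ) := by
      intro ζ
      ext i; fin_cases i <;> simp [vv, sub_eq_add_neg]
    rw [neg, neg]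
    have n1 : ‖((η : ℝ) : ℂ)‖ = η := by rw [Complex.norm_real, Real.norm_of_nonneg hηpos.le]
    have n2 : ‖-((η : ℝ) : ℂ)‖ = η := by rw [norm_neg, n1]
    have n3 : ‖Complex.I * ((η : ℝ) : ℂ)‖ = η := by rw [norm_mul, Complex.norm_I, one_mul, n1]
    have n4 : ‖-(Complex.I * ((η : ℝ) : ℂ))‖ = η := by rw [norm_neg, n3]
    have a1 := approx hn1 x h0 h1 (η : ℂ) (by rw [n1]; exact hηs) (by rw [n1, hnη]; exact ha4)
    have a2 := approx hn1 x h0 h1 (-(η : ℂ)) (by rw [n2]; exact hηs) (by rw [n2, hnη]; exact ha4)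
    have a3 := approx hn1 x h0 h1 (Complex.I * (η : ℂ)) (by rw [n3]; exact hηs)
      (by rw [n3, hnη]; exact ha4)
    have a4 := approx hn1 x h0 h1 (-(Complex.I * (η : ℂ))) (by rw [n4]; exact hηs)
      (by rw [n4, hnη]; exact ha4)
    have r1 : ((η : ℝ) : ℂ).re = η := Complex.ofReal_re _
    have r2 : (-((η : ℝ) : ℂ)).re = -η := by simp
    have r3 : (Complex.I * ((η : ℝ) : ℂ)).re = 0 := by simp
    have r4 : (-(Complex.I * ((η : ℝ) : ℂ))).re = 0 := by simp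
    rw [r1, hnη] at a1
    rw [r2, mul_neg, hnη, ← sub_eq_add_neg] at a2
    rw [r3, mul_zero, add_zero] at a3
    rw [r4, mul_zero, add_zero] at a4
    set Q1 := q n (x + vv (η : ℂ))
    set Q2 := q n (x + vv (-(η : ℂ)))
    set Q3 := q n (x + vv (Complex.I * (η : ℂ)))
    set Q4 := q n (x + vv (-(Complex.I * (η : ℂ))))
    set B1 := A (n * (bb x / ‖x‖ ^ 2) + a)
    set B2 := A (n * (bb x / ‖x‖ ^ 2) - a)
    set B3 := A (n * (bb x / ‖x‖ ^ 2))
    have hfin : 1 / 2 ≤ n ^ 2 * |Q1 + Q2 - (Q3 + Q4)| := by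
      have e : n ^ 2 * |Q1 + Q2 - (Q3 + Q4)| = |n ^ 2 * (Q1 + Q2 - (Q3 + Q4))| := by
        rw [abs_mul, abs_of_pos (by positivity : (0:ℝ) < n ^ 2)]
      rw [e]
      have a1' := abs_le.1 a1
      have a2' := abs_le.1 a2
      have a3' := abs_le.1 a3
      have a4' := abs_le.1 a4
      rcases le_abs.1 hA with h | h
      · refine le_trans ?_ (le_abs_self _)
        nlinarith [a1'.1, a2'.1, a3'.2, a4'.2]
      · refine le_trans ?_ (neg_le_abs _)
        nlinarith [a1'.2, a2'.2, a3'.1, a4'.1]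
    rw [div_le_iff₀ (by positivity)]
    linarith
  rcases A_osc (n * (bb x / ‖x‖ ^ 2)) with h | h
  · exact main π pi_pos pi_le_four h
  · exact main (π / 2) (by positivity) (by linarith [pi_le_four, pi_pos]) h

end Pool.Agent.R509NU
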