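import Mathlib
import Pool.Agent.R509NU.Local

namespace Pool.Agent.R509NU

open Real

noncomputable abbrev H := lp (fun _ : ℕ => E2) 2

/-- the perturbation -/
noncomputable def Q (x : H) : ℝ := ∑' k : ℕ, q ((k : ℝ) + 1) (x k)

lemma one_le_idx (k : ℕ) : (1 : ℝ) ≤ (k : ℝ) + 1 := by
  have : (0:ℝ) ≤ k := Nat.cast_nonneg k
  linarith

lemma hasSum_sq (x : H) : HasSum (fun k => ‖x k‖ ^ 2) (‖x‖ ^ 2) := by
  have h := lp.hasSum_norm (E := fun _ : ℕ => E2) (p := 2) (by norm_num) x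
  simpa using h

lemma summable_q (x : H) : Summable (fun k : ℕ => q ((k : ℝ) + 1) (x k)) := by
  refine Summable.of_norm_bounded ((hasSum_sq x).summable.mul_left 2) fun k => ?_
  rw [Real.norm_eq_abs]
  exact abs_q_le' (one_le_idx k) _

lemma abs_Q_le (x : H) : |Q x| ≤ 2 * ‖x‖ ^ 2 := by
  rw [← Real.norm_eq_abs]
  refine tsum_of_norm_bounded ((hasSum_sq x).mul_left 2) fun k => ?_
  rw [Real.norm_eq_abs]
  exact abs_q_le' (one_le_idx k) _

lemma Q_smul (c : ℂ) (x : H) : Q (c • x) = ‖c‖ ^ 2 * Q x := by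
  unfold Q
  rw [← tsum_mul_left]
  congr 1
  funext k
  rw [← q_smul]
  rfl

lemma Q_jensen (x y : H) {a b : ℝ} (ha : 0 ≤ a) (hb : 0 ≤ b) (hab : a + b = 1) :
    |Q ((a : ℂ) • x + (b : ℂ) • y) - (a * Q x + b * Q y)| ≤ 48 * (a * b) * ‖x - y‖ ^ 2 := by
  have e : Q ((a : ℂ) • x + (b : ℂ) • y) - (a * Q x + b * Q y)
      = ∑' k : ℕ, (q ((k : ℝ) + 1) ((a : ℂ) • x k + (b : ℂ) • y k)
        - (a * q ((k : ℝ) + 1) (x k) + b * q ((k : ℝ) + 1) (y k))) := by
    have s1 := summable_q ((a : ℂ) • x + (b : ℂ) • y)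
    have s2 := (summable_q x).mul_left a
    have s3 := (summable_q y).mul_left b
    unfold Q
    rw [← tsum_mul_left, ← tsum_mul_left, ← s2.tsum_add s3, ← s1.tsum_sub (s2.add s3)]
    rfl
  rw [e, ← Real.norm_eq_abs]
  refine tsum_of_norm_bounded ((hasSum_sq (x - y)).mul_left _) fun k => ?_
  rw [Real.norm_eq_abs]
  exact q_jensen (one_le_idx k) (x k) (y k) ha hb hab

/-- the square of the new norm -/
noncomputable def Phi (x : H) : ℝ := ‖x‖ ^ 2 + Q x / 1000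

lemma Phi_lower (x : H) : 998 / 1000 * ‖x‖ ^ 2 ≤ Phi x := by
  have := (abs_le.1 (abs_Q_le x)).1
  unfold Phi; linarith

lemma Phi_upper (x : H) : Phi x ≤ 1002 / 1000 * ‖x‖ ^ 2 := by
  have := (abs_le.1 (abs_Q_le x)).2
  unfold Phi; linarith

lemma Phi_nonneg (x : H) : 0 ≤ Phi x := le_trans (by positivity) (Phi_lower x)

lemma Phi_smul (c : ℂ) (x : H) : Phi (c • x) = ‖c‖ ^ 2 * Phi x := by
  unfold Phi
  rw [Q_smul, norm_smul]; ring

lemma norm_sq_convex (x y : H) {a b : ℝ} (hab : a + b = 1) :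
    ‖(a : ℂ) • x + (b : ℂ) • y‖ ^ 2 = a * ‖x‖ ^ 2 + b * ‖y‖ ^ 2 - a * b * ‖x - y‖ ^ 2 := by
  have h1 := norm_add_sq (𝕜 := ℂ) ((a : ℂ) • x) ((b : ℂ) • y)
  have h2 := norm_sub_sq (𝕜 := ℂ) x y
  rw [norm_smul, norm_smul, inner_smul_left, inner_smul_right] at h1
  simp only [Complex.norm_real, Real.norm_eq_abs, mul_pow, sq_abs, Complex.conj_ofReal,
    RCLike.re_to_complex] at h1 h2
  have h3 : ((a : ℂ) * ((b : ℂ) * inner ℂ x y)).re = a * b * (inner ℂ x y).re := by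
    rw [← mul_assoc, ← Complex.ofReal_mul, Complex.re_ofReal_mul]
  rw [h3] at h1
  rw [h1, h2]
  have ha : a = 1 - b := by linarith
  subst ha
  ring

lemma Phi_jensen_upper (x y : H) {a b : ℝ} (ha : 0 ≤ a) (hb : 0 ≤ b) (hab : a + b = 1) :
    Phi ((a : ℂ) • x + (b : ℂ) • y)
      ≤ a * Phi x + b * Phi y - 952 / 1000 * (a * b) * ‖x - y‖ ^ 2 := by
  have h := (abs_le.1 (Q_jensen x y ha hb hab)).2
  unfold Phi
  rw [norm_sq_convex x y hab]
  linarith

lemma Phi_jensen_lower (x y : H) {a b : ℝ} (ha : 0 ≤ a) (hb : 0 ≤ b) (hab : a + b = 1) :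
    a * Phi x + b * Phi y - 1048 / 1000 * (a * b) * ‖x - y‖ ^ 2
      ≤ Phi ((a : ℂ) • x + (b : ℂ) • y) := by
  have h := (abs_le.1 (Q_jensen x y ha hb hab)).1
  unfold Phi
  rw [norm_sq_convex x y hab]
  linarith

lemma Phi_convex (x y : H) {a b : ℝ} (ha : 0 ≤ a) (hb : 0 ≤ b) (hab : a + b = 1) :
    Phi ((a : ℂ) • x + (b : ℂ) • y) ≤ a * Phi x + b * Phi y := by
  have h := Phi_jensen_upper x y ha hb hab
  have : 0 ≤ 952 / 1000 * (a * b) * ‖x - y‖ ^ 2 := by positivity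
  linarith

/-- second difference -/
noncomputable def D (x h : H) : ℝ := Phi (x + h) + Phi (x - h) - 2 * Phi x

lemma D_lower (x h : H) : 1904 / 1000 * ‖h‖ ^ 2 ≤ D x h := by
  have e := Phi_jensen_upper (x + h) (x - h) (a := 1 / 2) (b := 1 / 2) (by norm_num) (by norm_num)
    (by norm_num)
  have e1 : (((1 / 2 : ℝ)) : ℂ) • (x + h) + (((1 / 2 : ℝ)) : ℂ) • (x - h) = x := by
    push_cast; module
  have e2 : (x + h) - (x - h) = (2 : ℂ) • h := by module
  rw [e1, e2, norm_smul] at e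
  simp only [Complex.norm_ofNat] at e
  unfold D
  nlinarith

lemma D_upper (x h : H) : D x h ≤ 2096 / 1000 * ‖h‖ ^ 2 := by
  have e := Phi_jensen_lower (x + h) (x - h) (a := 1 / 2) (b := 1 / 2) (by norm_num) (by norm_num)
    (by norm_num)
  have e1 : (((1 / 2 : ℝ)) : ℂ) • (x + h) + (((1 / 2 : ℝ)) : ℂ) • (x - h) = x := by
    push_cast; module
  have e2 : (x + h) - (x - h) = (2 : ℂ) • h := by module
  rw [e1, e2, norm_smul] at e
  simp only [Complex.norm_ofNat] at e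
  unfold D
  nlinarith

lemma D_convex (x g h : H) {a b : ℝ} (ha : 0 ≤ a) (hb : 0 ≤ b) (hab : a + b = 1) :
    D x ((a : ℂ) • g + (b : ℂ) • h) ≤ a * D x g + b * D x h := by
  have h1 := Phi_convex (x + g) (x + h) ha hb hab
  have h2 := Phi_convex (x - g) (x - h) ha hb hab
  have hc : (a : ℂ) + (b : ℂ) = 1 := by rw [← Complex.ofReal_add, hab]; simp
  have e1 : (a : ℂ) • (x + g) + (b : ℂ) • (x + h) = x + ((a : ℂ) • g + (b : ℂ) • h) := by
    calc _ = ((a : ℂ) + (b : ℂ)) • x + ((a : ℂ) • g + (b : ℂ) • h) := by module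
      _ = _ := by rw [hc, one_smul]
  have e2 : (a : ℂ) • (x - g) + (b : ℂ) • (x - h) = x - ((a : ℂ) • g + (b : ℂ) • h) := by
    calc _ = ((a : ℂ) + (b : ℂ)) • x - ((a : ℂ) • g + (b : ℂ) • h) := by module
      _ = _ := by rw [hc, one_smul]
  rw [e1] at h1
  rw [e2] at h2
  unfold D
  have : 2 * Phi x = a * (2 * Phi x) + b * (2 * Phi x) := by rw [← add_mul, hab, one_mul]
  nlinarith

/-- local Lipschitz bound for the second difference -/
lemma D_lip (x g k : H) {R : ℝ} (hR : 0 < R) (hg : ‖g‖ ≤ R) (hk : ‖k‖ ≤ R) :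
    D x g ≤ D x k + 10 * R * ‖g - k‖ := by
  by_cases hs : R ≤ ‖g - k‖
  · have h1 := D_upper x g
    have h2 := D_lower x k
    have h3 : ‖g‖ ^ 2 ≤ R * ‖g - k‖ := by nlinarith [norm_nonneg g]
    nlinarith [sq_nonneg ‖k‖, norm_nonneg g, norm_nonneg (g - k)]
  · push Not at hs
    by_cases h0 : g = k
    · rw [h0]; simp
    have hpos : 0 < ‖g - k‖ := norm_pos_iff.2 (sub_ne_zero.2 h0)
    set l : ℝ := ‖g - k‖ / R with hl
    have hl0 : 0 < l := by positivity
    have hl1 : l ≤ 1 := by rw [hl, div_le_one hR]; exact hs.le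
    set m : H := k + ((l⁻¹ : ℝ) : ℂ) • (g - k) with hm
    have hgm : g = ((1 - l : ℝ) : ℂ) • k + ((l : ℝ) : ℂ) • m := by
      have hll : (l : ℂ) * ((l⁻¹ : ℝ) : ℂ) = 1 := by
        rw [← Complex.ofReal_mul, mul_inv_cancel₀ hl0.ne']; simp
      rw [hm, smul_add, smul_smul, hll]
      push_cast; module
    have hmn : ‖m‖ ≤ 2 * R := by
      rw [hm]
      refine (norm_add_le _ _).trans ?_
      rw [norm_smul, Complex.norm_real, Real.norm_of_nonneg (by positivity)]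
      have : l⁻¹ * ‖g - k‖ = R := by rw [hl]; field_simp
      rw [this]; linarith
    have hc := D_convex x k m (a := 1 - l) (b := l) (by linarith) hl0.le (by ring)
    rw [← hgm] at hc
    have h1 := D_upper x m
    have h2 : 0 ≤ D x k := le_trans (by positivity) (D_lower x k)
    have h3 : ‖m‖ ^ 2 ≤ 4 * R ^ 2 := by nlinarith [norm_nonneg m]
    have h4 : l * R = ‖g - k‖ := by rw [hl]; field_simp
    calc D x g ≤ (1 - l) * D x k + l * D x m := hc
      _ ≤ D x k + l * (2096 / 1000 * (4 * R ^ 2)) := by nlinarith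
      _ = D x k + 8384 / 1000 * R * (l * R) := by ring
      _ ≤ D x k + 10 * R * ‖g - k‖ := by rw [h4]; nlinarith

/-- second differences of `Q` in a single block -/
lemma Q_add_single (x : H) (n : ℕ) (v : E2) :
    Q (x + lp.single 2 n v) - Q x = q ((n : ℝ) + 1) (x n + v) - q ((n : ℝ) + 1) (x n) := by
  unfold Q
  rw [← (summable_q _).tsum_sub (summable_q x)]
  rw [tsum_eq_single n]
  · have h : (x + lp.single 2 n v : H) n = x n + v := by
      rw [lp.coeFn_add, Pi.add_apply, lp.single_apply_self]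
    rw [h]
  · intro k hk
    have h : (x + lp.single 2 n v : H) k = x k := by
      rw [lp.coeFn_add, Pi.add_apply, lp.single_apply_ne (E := fun _ : ℕ => E2) 2 n v hk, add_zero]
    rw [h, sub_self]

lemma D_single (x : H) (n : ℕ) (v : E2) :
    D x (lp.single 2 n v) = 2 * ‖v‖ ^ 2 + (q ((n : ℝ) + 1) (x n + v) + q ((n : ℝ) + 1) (x n - v)
      - 2 * q ((n : ℝ) + 1) (x n)) / 1000 := by
  have h1 := Q_add_single x n v
  have h2 := Q_add_single x n (-v)
  rw [lp.single_neg, ← sub_eq_add_neg, ← sub_eq_add_neg] at h2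
  have h3 := norm_add_sq (𝕜 := ℂ) x (lp.single 2 n v)
  have h4 := norm_sub_sq (𝕜 := ℂ) x (lp.single 2 n v)
  have h5 : ‖(lp.single 2 n v : H)‖ = ‖v‖ := by
    exact lp.norm_single (E := fun _ : ℕ => E2) (p := 2) (by norm_num) n v
  unfold D Phi
  rw [h3, h4, h5]
  linarith

end Pool.Agent.R509NU
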