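import Mathlib
import Pool.Agent.R509NU.Space
import Pool.Agent.R509NU.Iter

namespace Pool.Agent.R509NU

open Real

/-- the space: `H` with the norm `sqrt Phi` -/
def X : Type := H

noncomputable instance : AddCommGroup X := inferInstanceAs (AddCommGroup H)
noncomputable instance : Module ℂ X := inferInstanceAs (Module ℂ H)
noncomputable instance : Norm X := ⟨fun x => Real.sqrt (Phi (show H from x))⟩

/-- the identity map -/
noncomputable def toH : X ≃ₗ[ℂ] H := LinearEquiv.refl ℂ H

lemma norm_def' (x : X) : ‖x‖ = Real.sqrt (Phi (toH x)) := rfl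

lemma norm_sq' (x : X) : ‖x‖ ^ 2 = Phi (toH x) := by
  rw [norm_def', Real.sq_sqrt (Phi_nonneg _)]

lemma core : NormedSpace.Core ℂ X where
  norm_nonneg x := Real.sqrt_nonneg _
  norm_smul c x := by
    rw [norm_def', norm_def', map_smul, Phi_smul, Real.sqrt_mul (by positivity),
      Real.sqrt_sq (norm_nonneg _)]
  norm_triangle x y := by
    by_cases hx : toH x = 0
    · have : x = 0 := by simpa using hx
      subst this
      simp only [zero_add]
      exact le_add_of_nonneg_left (Real.sqrt_nonneg _)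
    by_cases hy : toH y = 0
    · have : y = 0 := by simpa using hy
      subst this
      simp only [add_zero]
      exact le_add_of_nonneg_right (Real.sqrt_nonneg _)
    have hpx : 0 < Phi (toH x) := lt_of_lt_of_le (by positivity) (Phi_lower _)
    have hpy : 0 < Phi (toH y) := lt_of_lt_of_le (by positivity) (Phi_lower _)
    set a := ‖x‖ with ha
    set b := ‖y‖ with hb
    have ha0 : 0 < a := by rw [ha, norm_def']; exact Real.sqrt_pos.2 hpx
    have hb0 : 0 < b := by rw [hb, norm_def']; exact Real.sqrt_pos.2 hpy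
    have hs : 0 < a + b := by positivity
    have h := Phi_convex ((((a + b) / a : ℝ) : ℂ) • toH x) ((((a + b) / b : ℝ) : ℂ) • toH y)
      (a := a / (a + b)) (b := b / (a + b)) (by positivity) (by positivity) (by field_simp)
    rw [smul_smul, smul_smul, ← Complex.ofReal_mul, ← Complex.ofReal_mul] at h
    have e1 : a / (a + b) * ((a + b) / a) = 1 := by field_simp
    have e2 : b / (a + b) * ((a + b) / b) = 1 := by field_simp
    rw [e1, e2, Complex.ofReal_one, one_smul, one_smul, Phi_smul, Phi_smul, ← norm_sq' x,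
      ← norm_sq' y, ← map_add, ← norm_sq', Complex.norm_real, Complex.norm_real,
      Real.norm_eq_abs, Real.norm_eq_abs, sq_abs, sq_abs, ← ha, ← hb] at h
    have e3 : a / (a + b) * (((a + b) / a) ^ 2 * a ^ 2) + b / (a + b) * (((a + b) / b) ^ 2 * b ^ 2)
        = (a + b) ^ 2 := by
      field_simp
    rw [e3] at h
    exact (pow_le_pow_iff_left₀ (Real.sqrt_nonneg _) hs.le two_ne_zero).1 h
  norm_eq_zero_iff x := by
    constructor
    · intro h
      have h1 : Phi (toH x) = 0 := by rw [← norm_sq', h]; ring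
      have h2 := Phi_lower (toH x)
      rw [h1] at h2
      have h3 : ‖toH x‖ ^ 2 = 0 := le_antisymm (by linarith) (by positivity)
      have h4 : toH x = 0 := by simpa using h3
      simpa using h4
    · rintro rfl
      rw [norm_def', map_zero]
      have h2 := Phi_upper 0
      have h3 := Phi_nonneg 0
      simp only [norm_zero, ne_eq, OfNat.ofNat_ne_zero, not_false_eq_true, zero_pow, mul_zero] at h2
      rw [le_antisymm h2 h3, Real.sqrt_zero]

noncomputable instance : NormedAddCommGroup X := NormedAddCommGroup.ofCore core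
noncomputable instance : NormedSpace ℂ X := NormedSpace.ofCore core

lemma norm_sqX (x : X) : ‖x‖ ^ 2 = Phi (toH x) := norm_sq' x

lemma toH_le (x : X) : ‖toH x‖ ≤ 1002 / 1000 * ‖x‖ := by
  have h := Phi_lower (toH x)
  rw [← norm_sqX] at h
  have h2 : ‖toH x‖ ^ 2 ≤ (1002 / 1000 * ‖x‖) ^ 2 := by
    rw [mul_pow]; nlinarith [sq_nonneg ‖x‖]
  exact (pow_le_pow_iff_left₀ (norm_nonneg _) (by positivity) two_ne_zero).1 h2

lemma le_toH (x : X) : ‖x‖ ≤ 1001 / 1000 * ‖toH x‖ := by
  have h := Phi_upper (toH x)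
  rw [← norm_sqX] at h
  have h2 : ‖x‖ ^ 2 ≤ (1001 / 1000 * ‖toH x‖) ^ 2 := by
    rw [mul_pow]; nlinarith [sq_nonneg ‖toH x‖]
  exact (pow_le_pow_iff_left₀ (norm_nonneg _) (by positivity) two_ne_zero).1 h2

noncomputable def toHL : X ≃L[ℂ] H :=
  toH.toContinuousLinearEquivOfBounds (1002 / 1000) (1001 / 1000) toH_le
    (fun y => by
      have := le_toH (toH.symm y)
      rwa [LinearEquiv.apply_symm_apply] at this)

instance : CompleteSpace X :=
  (completeSpace_congr (e := toHL.toEquiv) toHL.isUniformEmbedding).2 inferInstance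

lemma exists_ne_zeroH : ∃ x : H, x ≠ 0 := by
  refine ⟨lp.single 2 0 (vv 1), fun h => ?_⟩
  have h5 : ‖(lp.single (E := fun _ : ℕ => E2) 2 0 (vv 1) : H)‖ = ‖vv 1‖ :=
    lp.norm_single (E := fun _ : ℕ => E2) (p := 2) (by norm_num) 0 (vv 1)
  rw [h, norm_vv] at h5
  simp at h5

instance : Nontrivial X := by
  obtain ⟨x, hx⟩ := exists_ne_zeroH
  exact ⟨⟨toH.symm x, 0, fun h => hx (by simpa using h)⟩⟩

lemma uc : UC X 5 := by
  intro x y hx hy
  have h := Phi_jensen_upper (toH x) (toH y) (a := 1 / 2) (b := 1 / 2) (by norm_num) (by norm_num)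
    (by norm_num)
  have e : (((1 / 2 : ℝ)) : ℂ) • toH x + (((1 / 2 : ℝ)) : ℂ) • toH y
      = (((1 / 2 : ℝ)) : ℂ) • toH (x + y) := by rw [map_add, smul_add]
  rw [e, Phi_smul, ← norm_sqX, ← norm_sqX, ← norm_sqX, hx, hy, Complex.norm_real,
    ← map_sub] at h
  have h1 := Phi_upper (toH (x - y))
  rw [← norm_sqX] at h1
  have h2 : ‖x + y‖ ≤ 2 := (norm_add_le _ _).trans (by rw [hx, hy]; norm_num)
  have h3 := norm_nonneg (x + y)
  have h4 : ‖(1 / 2 : ℝ)‖ = 1 / 2 := by rw [Real.norm_eq_abs]; norm_num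
  rw [h4] at h
  nlinarith [mul_nonneg h3 (sub_nonneg.2 h2)]

lemma us : US X 2 := by
  intro x h hx
  have h1 := D_upper (toH x) (toH h)
  unfold D at h1
  rw [← map_add, ← map_sub, ← norm_sqX, ← norm_sqX, ← norm_sqX, hx] at h1
  have h2 := Phi_lower (toH h)
  rw [← norm_sqX] at h2
  have h5 : (‖x + h‖ + ‖x - h‖) ^ 2 ≤ (2 + 2 * ‖h‖ ^ 2) ^ 2 := by
    nlinarith [sq_nonneg (‖x + h‖ - ‖x - h‖), sq_nonneg (‖h‖ ^ 2), sq_nonneg ‖h‖]
  exact (pow_le_pow_iff_left₀ (by positivity) (by positivity) two_ne_zero).1 h5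

end Pool.Agent.R509NU
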