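import Mathlib
import Pool.Agent.R509NU.XSpace

namespace Pool.Agent.R509NU

open Real

/-- polarization: a bound for the quadratic form gives a bound for the operator -/
lemma polar (S : H →ₗ[ℂ] H) {κ : ℝ} (h : ∀ x : H, ‖inner ℂ x (S x)‖ ≤ κ * ‖x‖ ^ 2) (u : H) :
    ‖S u‖ ≤ 2 * κ * ‖u‖ := by
  by_cases hu : u = 0
  · simp [hu]
  by_cases hSu : S u = 0
  · rw [hSu, norm_zero]
    have h1 := h u
    rw [hSu] at h1
    simp only [inner_zero_right, norm_zero] at h1
    have h2 : 0 < ‖u‖ ^ 2 := by positivity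
    have h3 : 0 ≤ κ := by
      by_contra hk
      push Not at hk
      nlinarith
    positivity
  have hun : 0 < ‖u‖ := norm_pos_iff.2 hu
  have hSn : 0 < ‖S u‖ := norm_pos_iff.2 hSu
  set s : ℝ := ‖u‖ / ‖S u‖ with hs
  set v : H := (s : ℂ) • S u with hv
  have hvn : ‖v‖ = ‖u‖ := by
    rw [hv, norm_smul, Complex.norm_real, Real.norm_of_nonneg (by positivity), hs]
    field_simp
  have hB : inner ℂ v (S u) = ((‖u‖ * ‖S u‖ : ℝ) : ℂ) := by
    rw [hv, inner_smul_left, inner_self_eq_norm_sq_to_K]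
    have : s * ‖S u‖ ^ 2 = ‖u‖ * ‖S u‖ := by rw [hs]; field_simp
    rw [← this]
    simp only [Complex.conj_ofReal, Complex.coe_algebraMap]
    push_cast; rfl
  have e : (4 : ℂ) * inner ℂ v (S u) =
      (inner ℂ (u + v) (S (u + v)) - inner ℂ (u - v) (S (u - v)))
      + Complex.I * (inner ℂ (u + Complex.I • v) (S (u + Complex.I • v))
        - inner ℂ (u - Complex.I • v) (S (u - Complex.I • v))) := by
    simp only [map_add, map_sub, map_smul, inner_add_left, inner_add_right, inner_sub_left,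
      inner_sub_right, inner_smul_left, inner_smul_right, Complex.conj_I]
    ring_nf
    rw [Complex.I_sq]
    ring
  have h1 := h (u + v)
  have h2 := h (u - v)
  have h3 := h (u + Complex.I • v)
  have h4 := h (u - Complex.I • v)
  have p1 := parallelogram_law_with_norm ℂ u v
  have p2 := parallelogram_law_with_norm ℂ u (Complex.I • v)
  have hiv : ‖Complex.I • v‖ = ‖u‖ := by rw [norm_smul, Complex.norm_I, one_mul, hvn]
  rw [hvn] at p1
  rw [hiv] at p2
  have hn : ‖(4 : ℂ) * inner ℂ v (S u)‖ = 4 * (‖u‖ * ‖S u‖) := by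
    rw [norm_mul, hB, Complex.norm_real, Real.norm_of_nonneg (by positivity)]
    simp
  have hle : ‖(4 : ℂ) * inner ℂ v (S u)‖ ≤ κ * (‖u + v‖ ^ 2 + ‖u - v‖ ^ 2
      + ‖u + Complex.I • v‖ ^ 2 + ‖u - Complex.I • v‖ ^ 2) := by
    rw [e]
    refine (norm_add_le _ _).trans ?_
    rw [norm_mul, Complex.norm_I, one_mul]
    have n1 := norm_sub_le (inner ℂ (u + v) (S (u + v))) (inner ℂ (u - v) (S (u - v)))
    have n2 := norm_sub_le (inner ℂ (u + Complex.I • v) (S (u + Complex.I • v)))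
      (inner ℂ (u - Complex.I • v) (S (u - Complex.I • v)))
    linarith
  rw [hn] at hle
  have hsum : ‖u + v‖ ^ 2 + ‖u - v‖ ^ 2
      + ‖u + Complex.I • v‖ ^ 2 + ‖u - Complex.I • v‖ ^ 2 = 8 * ‖u‖ ^ 2 := by
    nlinarith
  rw [hsum] at hle
  have : ‖u‖ * ‖S u‖ ≤ ‖u‖ * (2 * κ * ‖u‖) := by nlinarith
  exact le_of_mul_le_mul_left this hun

/-- a support functional at `x` is close to the inner product with `x` -/
lemma support_re {x : X} {f : X →L[ℂ] ℂ} (hx : ‖x‖ = 1) (hf : ‖f‖ = 1) (hfx : f x = 1) (y : X) :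
    (f y).re ≤ (inner ℂ (toH x) (toH y)).re + 7 / 100 * ‖toH y‖ := by
  by_cases hy : toH y = 0
  · have : y = 0 := by simpa using hy
    subst this
    simp
  have hyn : 0 < ‖toH y‖ := norm_pos_iff.2 hy
  set t : ℝ := 63 / 1000 / ‖toH y‖ with ht
  have ht0 : 0 < t := by positivity
  have h1 : 1 + t * (f y).re ≤ ‖x + (t : ℂ) • y‖ := by
    have e : (f (x + (t : ℂ) • y)).re = 1 + t * (f y).re := by
      rw [map_add, map_smul, hfx, smul_eq_mul, Complex.add_re, Complex.one_re,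
        Complex.re_ofReal_mul]
    rw [← e]
    calc _ ≤ ‖f (x + (t : ℂ) • y)‖ := Complex.re_le_norm _
      _ ≤ ‖f‖ * ‖x + (t : ℂ) • y‖ := f.le_opNorm _
      _ = _ := by rw [hf, one_mul]
  have h2 : ‖x + (t : ℂ) • y‖ ^ 2 ≤ 1002 / 1000 * ‖toH x + (t : ℂ) • toH y‖ ^ 2 := by
    rw [norm_sqX, map_add, map_smul]
    exact Phi_upper _
  have h3 := norm_add_sq (𝕜 := ℂ) (toH x) ((t : ℂ) • toH y)
  rw [inner_smul_right, norm_smul, Complex.norm_real, Real.norm_of_nonneg ht0.le] at h3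
  simp only [RCLike.re_to_complex, Complex.re_ofReal_mul] at h3
  have h4 := Phi_lower (toH x)
  rw [← norm_sqX, hx] at h4
  have h5 : ‖toH x‖ ≤ 1002 / 1000 := by
    have := toH_le x; rw [hx] at this; linarith
  have h6 : t * ‖toH y‖ = 63 / 1000 := by rw [ht]; field_simp
  set I := (inner ℂ (toH x) (toH y)).re with hI
  have hIabs : |I| ≤ 1002 / 1000 * ‖toH y‖ := by
    refine (Complex.abs_re_le_norm _).trans ((norm_inner_le_norm _ _).trans ?_)
    gcongr
  have h7 : 2 * (t * (f y).re) ≤ ‖x + (t : ℂ) • y‖ ^ 2 - 1 := by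
    nlinarith [sq_nonneg (‖x + (t : ℂ) • y‖ - 1)]
  have h8 : t * (f y).re ≤ t * (I + 7 / 100 * ‖toH y‖) := by
    have e1 : t * (I + 7 / 100 * ‖toH y‖) = t * I + 7 / 100 * (63 / 1000) := by
      rw [← h6]; ring
    rw [e1]
    have h9 : (t * ‖toH y‖) ^ 2 = (63 / 1000) ^ 2 := by rw [h6]
    have hI2 : t * I ≤ 1002 / 1000 * (63 / 1000) := by
      calc t * I ≤ t * (1002 / 1000 * ‖toH y‖) := by
            gcongr; exact (le_abs_self _).trans hIabs
        _ = 1002 / 1000 * (t * ‖toH y‖) := by ring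
        _ = _ := by rw [h6]
    nlinarith
  exact le_of_mul_le_mul_left h8 ht0

lemma support_close {x : X} {f : X →L[ℂ] ℂ} (hx : ‖x‖ = 1) (hf : ‖f‖ = 1) (hfx : f x = 1) (y : X) :
    ‖f y - inner ℂ (toH x) (toH y)‖ ≤ 7 / 100 * ‖toH y‖ := by
  obtain ⟨u, hu1, hu2⟩ := exists_unit_mul (f y - inner ℂ (toH x) (toH y))
  have h := support_re hx hf hfx (u • y)
  rw [map_smul, map_smul, inner_smul_right, norm_smul, hu1, one_mul, smul_eq_mul] at h
  have e : (u * f y).re - (u * inner ℂ (toH x) (toH y)).re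
      = ‖f y - inner ℂ (toH x) (toH y)‖ := by
    rw [← Complex.sub_re, ← mul_sub, hu2, Complex.ofReal_re]
  linarith

lemma quad_bound (T : X →L[ℂ] X) (x : X) :
    ‖inner ℂ (toH x) (toH (T x))‖ ≤ (nu T + 71 / 1000 * ‖T‖) * (1002 / 1000) * ‖toH x‖ ^ 2 := by
  by_cases hx0 : x = 0
  · subst hx0; simp
  have hxn : 0 < ‖x‖ := norm_pos_iff.2 hx0
  set x' : X := ((‖x‖⁻¹ : ℝ) : ℂ) • x with hx'
  have hx'n : ‖x'‖ = 1 := by
    rw [hx', norm_smul, Complex.norm_real, Real.norm_of_nonneg (by positivity)]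
    field_simp
  obtain ⟨f, hf1, hf2⟩ := exists_dual_vector ℂ x' (by intro h; rw [h] at hx'n; simp at hx'n)
  have hfx : f x' = 1 := by rw [hf2, hx'n]; simp
  have h1 := support_close hx'n hf1 hfx (T x')
  have h2 := le_nu T (p := (x', f)) ⟨hx'n, hf1, hfx⟩
  simp only at h2
  have h3 : ‖toH (T x')‖ ≤ 1002 / 1000 * ‖T‖ := by
    refine (toH_le _).trans ?_
    have := T.le_opNorm x'
    rw [hx'n, mul_one] at this
    linarith
  have h4 : ‖inner ℂ (toH x') (toH (T x'))‖ ≤ nu T + 71 / 1000 * ‖T‖ := by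
    have h5 : inner ℂ (toH x') (toH (T x')) = f (T x') - (f (T x') - inner ℂ (toH x') (toH (T x'))) := by
      ring
    rw [h5]
    refine (norm_sub_le _ _).trans ?_
    have : 0 ≤ ‖T‖ := norm_nonneg _
    linarith
  have h6 : inner ℂ (toH x) (toH (T x)) = ((‖x‖ ^ 2 : ℝ) : ℂ) * inner ℂ (toH x') (toH (T x')) := by
    rw [hx', map_smul, map_smul, map_smul, inner_smul_left, inner_smul_right, Complex.conj_ofReal,
      ← mul_assoc, ← mul_assoc, ← Complex.ofReal_mul, ← Complex.ofReal_mul]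
    have : ‖x‖ ^ 2 * ‖x‖⁻¹ * ‖x‖⁻¹ = 1 := by field_simp
    rw [this]; simp
  rw [h6, norm_mul, Complex.norm_real, Real.norm_of_nonneg (by positivity)]
  have h7 := Phi_upper (toH x)
  rw [← norm_sqX] at h7
  have h8 : 0 ≤ nu T + 71 / 1000 * ‖T‖ := le_trans (norm_nonneg _) h4
  calc ‖x‖ ^ 2 * ‖inner ℂ (toH x') (toH (T x'))‖
      ≤ (1002 / 1000 * ‖toH x‖ ^ 2) * (nu T + 71 / 1000 * ‖T‖) := by gcongr
    _ = _ := by ring

lemma ni (T : X →L[ℂ] X) : ‖T‖ ≤ 3 * nu T := by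
  set κ : ℝ := (nu T + 71 / 1000 * ‖T‖) * (1002 / 1000) with hκ
  have hp := polar (toH.toLinearMap.comp (T.toLinearMap.comp toH.symm.toLinearMap)) (κ := κ)
    (fun x => by
      have := quad_bound T (toH.symm x)
      simpa using this)
  have hκ0 : 0 ≤ κ := by
    obtain ⟨x, hx⟩ := exists_ne_zeroH
    have h1 := quad_bound T (toH.symm x)
    rw [LinearEquiv.apply_symm_apply] at h1
    have h2 := (norm_nonneg _).trans h1
    have h3 : 0 < ‖x‖ ^ 2 := by positivity
    by_contra h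
    push Not at h
    nlinarith
  have hb : ‖T‖ ≤ 1001 / 1000 * (2 * κ) * (1002 / 1000) := by
    refine ContinuousLinearMap.opNorm_le_bound _ (by positivity) fun x => ?_
    have h1 := hp (toH x)
    simp only [LinearMap.comp_apply, LinearEquiv.coe_coe, LinearEquiv.symm_apply_apply,
      ContinuousLinearMap.coe_coe] at h1
    calc ‖T x‖ ≤ 1001 / 1000 * ‖toH (T x)‖ := le_toH _
      _ ≤ 1001 / 1000 * (2 * κ * ‖toH x‖) := by gcongr
      _ ≤ 1001 / 1000 * (2 * κ * (1002 / 1000 * ‖x‖)) := by gcongr; exact toH_le x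
      _ = _ := by ring
  rw [hκ] at hb
  nlinarith [norm_nonneg T]

theorem bpb : BPBpNu ℂ X :=
  bpb_of_uc_us (by norm_num) (by norm_num) (by norm_num) uc us ni

end Pool.Agent.R509NU
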