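import Mathlib
import Pool.Agent.R509NU.Index

namespace Pool.Agent.R509NU

open Real

/-- the squared norm on the block with parameter `N` -/
noncomputable def G (N : ℝ) (v : E2) : ℝ := ‖v‖ ^ 2 + q N v / 1000

lemma G_lower {N : ℝ} (hN : 1 ≤ N) (v : E2) : 998 / 1000 * ‖v‖ ^ 2 ≤ G N v := by
  have := (abs_le.1 (abs_q_le' hN v)).1
  unfold G; linarith

lemma G_nonneg {N : ℝ} (hN : 1 ≤ N) (v : E2) : 0 ≤ G N v :=
  le_trans (by positivity) (G_lower hN v)

lemma G_pos {N : ℝ} (hN : 1 ≤ N) {v : E2} (hv : v ≠ 0) : 0 < G N v :=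
  lt_of_lt_of_le (by positivity) (G_lower hN v)

lemma G_smul (N : ℝ) (c : ℂ) (v : E2) : G N (c • v) = ‖c‖ ^ 2 * G N v := by
  unfold G
  rw [q_smul, norm_smul]; ring

lemma Phi_hasSum (x : H) : HasSum (fun k : ℕ => G ((k : ℝ) + 1) (x k)) (Phi x) := by
  unfold G Phi
  exact (hasSum_sq x).add ((summable_q x).hasSum.div_const 1000)

lemma G_le_Phi (x : H) (n : ℕ) : G ((n : ℝ) + 1) (x n) ≤ Phi x :=
  le_hasSum (Phi_hasSum x) n fun k _ => G_nonneg (one_le_idx k) _

lemma q_zero (N : ℝ) : q N 0 = 0 := by simp [q]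

lemma Phi_single (n : ℕ) (v : E2) : Phi (lp.single 2 n v) = G ((n : ℝ) + 1) v := by
  have h := Phi_hasSum (lp.single 2 n v)
  have h2 : HasSum (fun k : ℕ => G ((k : ℝ) + 1) ((lp.single (E := fun _ : ℕ => E2) 2 n v) k))
      (G ((n : ℝ) + 1) v) := by
    have := hasSum_single (f := fun k : ℕ =>
      G ((k : ℝ) + 1) ((lp.single (E := fun _ : ℕ => E2) 2 n v) k)) n (fun k hk => by
        rw [lp.single_apply_ne (E := fun _ : ℕ => E2) 2 n v hk]
        simp [G, q_zero])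
    simpa only [lp.single_apply_self] using this
  exact h.unique h2

/-- the contraction factor -/
noncomputable def sg : ℝ := 1 - 1 / 10 ^ 7

lemma sg_pos : 0 < sg := by unfold sg; norm_num
lemma sg_lt : sg < 1 := by unfold sg; norm_num

/-- the block operator `(z, w) ↦ (z, i s w)` -/
noncomputable def W : E2 →ₗ[ℂ] E2 where
  toFun v := !₂[v 0, Complex.I * sg * v 1]
  map_add' u v := by
    ext i; fin_cases i <;> simp [mul_add]
  map_smul' c v := by
    ext i; fin_cases i <;> simp; ring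

@[simp] lemma W_zero (v : E2) : W v 0 = v 0 := by simp [W]
@[simp] lemma W_one (v : E2) : W v 1 = Complex.I * sg * v 1 := by simp [W]

lemma norm_W_sq (v : E2) : ‖W v‖ ^ 2 = ‖v 0‖ ^ 2 + sg ^ 2 * ‖v 1‖ ^ 2 := by
  rw [nsq, W_zero, W_one, norm_mul, norm_mul, Complex.norm_I, Complex.norm_real,
    Real.norm_of_nonneg sg_pos.le]
  ring

lemma norm_W_le (v : E2) : ‖W v‖ ≤ ‖v‖ := by
  have h : ‖W v‖ ^ 2 ≤ ‖v‖ ^ 2 := by
    rw [norm_W_sq, nsq v]
    have h1 : sg ^ 2 ≤ 1 := by nlinarith [sg_pos, sg_lt]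
    nlinarith [sq_nonneg ‖v 1‖]
  exact (pow_le_pow_iff_left₀ (norm_nonneg _) (norm_nonneg _) two_ne_zero).1 h

lemma W_ne_zero {v : E2} (hv : v ≠ 0) : W v ≠ 0 := by
  intro h
  apply hv
  have h0 : v 0 = 0 := by rw [← W_zero, h]; rfl
  have h1 : Complex.I * sg * v 1 = 0 := by rw [← W_one, h]; rfl
  have h2 : (sg : ℂ) ≠ 0 := by exact_mod_cast sg_pos.ne'
  have h3 : v 1 = 0 := by
    rcases mul_eq_zero.1 h1 with h | h
    · rcases mul_eq_zero.1 h with h | h
      · exact absurd h Complex.I_ne_zero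
      · exact absurd h h2
    · exact h
  ext i; fin_cases i
  · simpa using h0
  · simpa using h3

lemma continuous_bb : Continuous bb := by
  unfold bb
  have h0 : Continuous fun x : E2 => x 0 := PiLp.continuous_apply 2 _ 0
  have h1 : Continuous fun x : E2 => x 1 := PiLp.continuous_apply 2 _ 1
  exact Complex.continuous_re.comp (h1.mul (Complex.continuous_conj.comp h0))

lemma continuous_A : Continuous A :=
  continuous_iff_continuousAt.2 fun t => (hasDerivAt_A t).continuousAt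

lemma G_continuousAt (N : ℝ) {v : E2} (hv : v ≠ 0) : ContinuousAt (G N) v := by
  unfold G q
  have h1 : ‖v‖ ^ 2 ≠ 0 := by positivity
  have hn : ContinuousAt (fun v : E2 => ‖v‖ ^ 2) v := (continuous_norm.pow 2).continuousAt
  have hA : ContinuousAt (fun v : E2 => A (N * (bb v / ‖v‖ ^ 2))) v := by
    have : ContinuousAt (fun v : E2 => N * (bb v / ‖v‖ ^ 2)) v :=
      continuousAt_const.mul ((continuous_bb.continuousAt).div hn h1)
    exact continuous_A.continuousAt.comp this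
  exact hn.add (((hn.mul hA).div_const _).div_const _)

lemma W_continuous : Continuous W := W.continuous_of_finiteDimensional

/-- the maximiser of `G (W v) / G v` -/
lemma exists_maximizer {N : ℝ} (hN : 1 ≤ N) : ∃ (v : E2) (ρ : ℝ), ‖v‖ = 1 ∧ 1 ≤ ρ ∧
    G N (W v) = ρ ^ 2 * G N v ∧ (∀ u : E2, G N (W u) ≤ ρ ^ 2 * G N u) ∧
    0 ≤ (v 0).re ∧ (v 0).im = 0 := by
  have hcomp : IsCompact (Metric.sphere (0 : E2) 1) := isCompact_sphere _ _
  set e : E2 := !₂[1, 0] with he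
  have he0 : e 0 = 1 := by simp [he]
  have he1 : e 1 = 0 := by simp [he]
  have hen : ‖e‖ = 1 := by
    have : ‖e‖ ^ 2 = 1 ^ 2 := by rw [nsq, he0, he1]; simp
    exact (pow_left_inj₀ (norm_nonneg _) zero_le_one two_ne_zero).1 this
  have hWe : W e = e := by
    ext i; fin_cases i
    · simp [W, he]
    · simp [W, he]
  have hmem : e ∈ Metric.sphere (0 : E2) 1 := by simpa using hen
  have hcont : ContinuousOn (fun v : E2 => G N (W v) / G N v) (Metric.sphere (0 : E2) 1) := by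
    intro v hv
    have hv0 : v ≠ 0 := by
      rintro rfl; simp at hv
    apply ContinuousAt.continuousWithinAt
    refine ContinuousAt.div ?_ (G_continuousAt N hv0) (G_pos hN hv0).ne'
    exact ContinuousAt.comp (f := W) (g := G N) (G_continuousAt N (W_ne_zero hv0))
      W_continuous.continuousAt
  obtain ⟨v0, hv0, hmax⟩ := hcomp.exists_isMaxOn ⟨e, hmem⟩ hcont
  have hv0n : ‖v0‖ = 1 := by simpa using hv0
  have hv0ne : v0 ≠ 0 := by rintro rfl; simp at hv0n
  have hG0 := G_pos hN hv0ne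
  set m : ℝ := G N (W v0) / G N v0 with hm
  have hm1 : 1 ≤ m := by
    have := hmax hmem
    simp only [Set.mem_setOf_eq] at this
    rw [hWe, div_self (G_pos hN (by rintro h; rw [h] at hen; simp at hen)).ne'] at this
    exact this
  obtain ⟨u, hu1, hu2⟩ := exists_unit_mul (v0 0)
  refine ⟨u • v0, Real.sqrt m, ?_, ?_, ?_, ?_, ?_, ?_⟩
  · rw [norm_smul, hu1, hv0n, one_mul]
  · rw [Real.one_le_sqrt]; exact hm1
  · rw [map_smul, G_smul, G_smul, hu1, Real.sq_sqrt (by linarith), hm]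
    field_simp
  · intro y
    rw [Real.sq_sqrt (by linarith)]
    by_cases hy : y = 0
    · subst hy
      rw [map_zero]
      simp [G, q_zero]
    · have hyn : 0 < ‖y‖ := norm_pos_iff.2 hy
      set y' : E2 := ((‖y‖⁻¹ : ℝ) : ℂ) • y with hy'
      have hy'n : ‖y'‖ = 1 := by
        rw [hy', norm_smul, Complex.norm_real, Real.norm_of_nonneg (by positivity)]
        field_simp
      have h := hmax (show y' ∈ Metric.sphere (0 : E2) 1 by simpa using hy'n)
      simp only [Set.mem_setOf_eq] at h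
      have hy'0 : y' ≠ 0 := by rintro h0; rw [h0] at hy'n; simp at hy'n
      rw [← hm, div_le_iff₀ (G_pos hN hy'0), hy', map_smul, G_smul, G_smul] at h
      have h3 : 0 < ‖((‖y‖⁻¹ : ℝ) : ℂ)‖ ^ 2 := by
        rw [Complex.norm_real, Real.norm_of_nonneg (by positivity)]; positivity
      have h4 : ‖((‖y‖⁻¹ : ℝ) : ℂ)‖ ^ 2 * G N (W y) ≤ ‖((‖y‖⁻¹ : ℝ) : ℂ)‖ ^ 2 * (m * G N y) := by
        linarith
      exact le_of_mul_le_mul_left h4 h3
  · rw [PiLp.smul_apply, smul_eq_mul, hu2, Complex.ofReal_re]; positivity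
  · rw [PiLp.smul_apply, smul_eq_mul, hu2, Complex.ofReal_im]

/-- quantitative localisation of the maximiser -/
lemma maximizer_local {N : ℝ} (hN : 10000 ≤ N) : ∃ (v : E2) (ρ : ℝ), ‖v‖ = 1 ∧ 1 ≤ ρ ∧
    G N (W v) = ρ ^ 2 * G N v ∧ (∀ u : E2, G N (W u) ≤ ρ ^ 2 * G N u) ∧
    ρ ≤ 1 + 1 / N ∧ ‖v 1‖ ≤ 200 / N ∧ ‖v 0 - 1‖ ≤ 200 / N ∧ |G N v - 1| ≤ 1 / N := by
  have hN1 : (1:ℝ) ≤ N := by linarith
  have hN0 : (0:ℝ) < N := by linarith
  obtain ⟨v, ρ, hv, hρ, h1, h2, h3, h4⟩ := exists_maximizer hN1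
  refine ⟨v, ρ, hv, hρ, h1, h2, ?_, ?_, ?_, ?_⟩
  all_goals
    have hq := abs_le.1 (abs_q_le hN1 v)
    have hqW := abs_le.1 (abs_q_le hN1 (W v))
    have hWle := norm_W_le v
    rw [hv] at hWle
    rw [hv] at hq
    have hW2 : ‖W v‖ ^ 2 ≤ 1 := by nlinarith [norm_nonneg (W v)]
    have hWq : 2 * ‖W v‖ ^ 2 / N ^ 2 ≤ 2 / N ^ 2 := by
      apply div_le_div_of_nonneg_right _ (by positivity); linarith
    have hNN : 1 / N ^ 2 ≤ 1 / (10000 * N) := by
      apply one_div_le_one_div_of_le (by positivity); nlinarith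
    have hNN' : 2 / N ^ 2 = 2 * (1 / N ^ 2) := by ring
    have hNN2 : 1 / (10000 * N) = 1 / N / 10000 := by field_simp
    have hinv : 0 < 1 / N := by positivity
    have hinv1 : 1 / N ≤ 1 / 10000 := one_div_le_one_div_of_le (by norm_num) hN
    simp only [one_pow, mul_one] at hq
    have hGv : G N v = 1 + q N v / 1000 := by unfold G; rw [hv, one_pow]
    have hGW : G N (W v) = ‖W v‖ ^ 2 + q N (W v) / 1000 := rfl
    have hsq : ‖v 0‖ ^ 2 + ‖v 1‖ ^ 2 = 1 := by rw [← nsq, hv, one_pow]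
    have hs1 : 1 / 10 ^ 7 ≤ 1 - sg ^ 2 := by unfold sg; norm_num
    have hρ2 : 1 ≤ ρ ^ 2 := by nlinarith
    have hG0 : 0 < G N v := by rw [hGv]; linarith [hq.1]
    have hGWge : G N v ≤ G N (W v) := by rw [h1]; nlinarith
    have hw2 : ‖v 1‖ ^ 2 ≤ (200 / N) ^ 2 := by
      have e1 := norm_W_sq v
      have e2 : 1 / 10 ^ 7 * ‖v 1‖ ^ 2 ≤ 4 / (1000 * N ^ 2) := by
        have e3 : (1 - sg ^ 2) * ‖v 1‖ ^ 2 ≤ 4 / (1000 * N ^ 2) := by
          have e4 : 4 / (1000 * N ^ 2) = 4 * (1 / N ^ 2) / 1000 := by field_simp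
          rw [e4]
          nlinarith [hqW.1, hqW.2, hq.1, hq.2]
        nlinarith [sq_nonneg ‖v 1‖]
      have e5 : (200 / N) ^ 2 = 10 ^ 7 * (4 / (1000 * N ^ 2)) := by field_simp; norm_num
      rw [e5]; linarith
    have hw : ‖v 1‖ ≤ 200 / N :=
      (pow_le_pow_iff_left₀ (norm_nonneg _) (by positivity) two_ne_zero).1 hw2
  · -- ρ
    have e1 : ρ ^ 2 * G N v ≤ 1 + 2 / N ^ 2 / 1000 := by
      rw [← h1, hGW]; linarith [hqW.2]
    have e2 : 1 - 2 / N ^ 2 / 1000 ≤ G N v := by rw [hGv]; linarith [hq.1]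
    have e3 : ρ ^ 2 ≤ 1 + 1 / N := by
      by_contra hcon
      push Not at hcon
      have : (1 + 1 / N) * (1 - 2 / N ^ 2 / 1000) < ρ ^ 2 * G N v := by
        have k1 : 0 < 1 - 2 / N ^ 2 / 1000 := by linarith
        calc (1 + 1 / N) * (1 - 2 / N ^ 2 / 1000) < ρ ^ 2 * (1 - 2 / N ^ 2 / 1000) := by gcongr
          _ ≤ ρ ^ 2 * G N v := by gcongr
      nlinarith
    nlinarith
  · exact hw
  · -- v 0
    have e0 : v 0 = (((v 0).re : ℝ) : ℂ) := by
      apply Complex.ext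
      · simp
      · simp [h4]
    have e1 : ‖v 0‖ = (v 0).re := by
      conv_lhs => rw [e0]
      rw [Complex.norm_real, Real.norm_of_nonneg h3]
    have e2 : ‖v 0 - 1‖ = |(v 0).re - 1| := by
      have : v 0 - 1 = (((v 0).re - 1 : ℝ) : ℂ) := by
        conv_lhs => rw [e0]
        push_cast; rfl
      rw [this, Complex.norm_real, Real.norm_eq_abs]
    rw [e2, ← e1]
    have e3 : ‖v 0‖ ≤ 1 := by nlinarith [norm_nonneg (v 0), sq_nonneg ‖v 1‖]
    rw [abs_of_nonpos (by linarith)]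
    have e4 : 1 - ‖v 0‖ ≤ ‖v 1‖ ^ 2 := by nlinarith [norm_nonneg (v 0)]
    have e5 : 200 / N ≤ 1 := by rw [div_le_one hN0]; linarith
    have e6 : 0 < 200 / N := by positivity
    nlinarith
  · rw [hGv, abs_le]
    constructor <;> linarith [hq.1, hq.2]

end Pool.Agent.R509NU
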