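import Mathlib
import Pool.Agent.R509NU.Maximizer

namespace Pool.Agent.R509NU

open Real

lemma norm_E2_le (w : E2) : ‖w‖ ≤ ‖w 0‖ + ‖w 1‖ := by
  have h : ‖w‖ ^ 2 ≤ (‖w 0‖ + ‖w 1‖) ^ 2 := by
    rw [nsq]; nlinarith [norm_nonneg (w 0), norm_nonneg (w 1)]
  exact (pow_le_pow_iff_left₀ (norm_nonneg _) (by positivity) two_ne_zero).1 h

lemma coord0_le (w : E2) : ‖w 0‖ ≤ ‖w‖ := by
  have h : ‖w 0‖ ^ 2 ≤ ‖w‖ ^ 2 := by rw [nsq]; nlinarith [sq_nonneg ‖w 1‖]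
  exact (pow_le_pow_iff_left₀ (norm_nonneg _) (norm_nonneg _) two_ne_zero).1 h

lemma coord1_le (w : E2) : ‖w 1‖ ≤ ‖w‖ := by
  have h : ‖w 1‖ ^ 2 ≤ ‖w‖ ^ 2 := by rw [nsq]; nlinarith [sq_nonneg ‖w 0‖]
  exact (pow_le_pow_iff_left₀ (norm_nonneg _) (norm_nonneg _) two_ne_zero).1 h

/-- the block operator on `H` -/
noncomputable def RH (n : ℕ) : H →ₗ[ℂ] H where
  toFun x := lp.single 2 n (W (x n))
  map_add' x y := by
    rw [lp.coeFn_add, Pi.add_apply, map_add, lp.single_add]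
  map_smul' c x := by
    rw [lp.coeFn_smul, Pi.smul_apply, map_smul, lp.single_smul, RingHom.id_apply]

lemma RH_apply (n : ℕ) (x : H) : RH n x = lp.single 2 n (W (x n)) := rfl

/-- the normalised block operator on `X` -/
noncomputable def TXl (n : ℕ) (ρ : ℝ) : X →ₗ[ℂ] X :=
  ((ρ⁻¹ : ℝ) : ℂ) • (toH.symm.toLinearMap ∘ₗ RH n ∘ₗ toH.toLinearMap)

lemma toH_TXl (n : ℕ) (ρ : ℝ) (x : X) :
    toH (TXl n ρ x) = ((ρ⁻¹ : ℝ) : ℂ) • (lp.single 2 n (W (toH x n)) : H) := by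
  unfold TXl
  rw [LinearMap.smul_apply, map_smul, LinearMap.comp_apply, LinearMap.comp_apply]
  congr 1

lemma norm_TXl_sq (n : ℕ) {ρ : ℝ} (hρ : 1 ≤ ρ) (x : X) :
    ‖TXl n ρ x‖ ^ 2 = (ρ⁻¹) ^ 2 * G ((n : ℝ) + 1) (W (toH x n)) := by
  rw [norm_sqX, toH_TXl, Phi_smul, Phi_single, Complex.norm_real, Real.norm_of_nonneg (by positivity)]

lemma norm_single' (n : ℕ) (v : E2) : ‖(lp.single 2 n v : H)‖ = ‖v‖ :=
  lp.norm_single (E := fun _ : ℕ => E2) (p := 2) (by norm_num) n v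

lemma norm_TXl_le (n : ℕ) {ρ : ℝ} (hρ : 1 ≤ ρ)
    (hW : ∀ u : E2, G ((n : ℝ) + 1) (W u) ≤ ρ ^ 2 * G ((n : ℝ) + 1) u) (x : X) :
    ‖TXl n ρ x‖ ≤ 1 * ‖x‖ := by
  have h1 := norm_TXl_sq n hρ x
  have h2 := hW (toH x n)
  have h3 := G_le_Phi (toH x) n
  rw [← norm_sqX] at h3
  have hρ0 : 0 < ρ := by linarith
  have h4 : ‖TXl n ρ x‖ ^ 2 ≤ ‖x‖ ^ 2 := by
    rw [h1]
    calc (ρ⁻¹) ^ 2 * G ((n : ℝ) + 1) (W (toH x n))
        ≤ (ρ⁻¹) ^ 2 * (ρ ^ 2 * G ((n : ℝ) + 1) (toH x n)) := by gcongr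
      _ = G ((n : ℝ) + 1) (toH x n) := by field_simp
      _ ≤ _ := h3
  rw [one_mul]
  exact (pow_le_pow_iff_left₀ (norm_nonneg _) (norm_nonneg _) two_ne_zero).1 h4

/-- the test pairs: `T` has norm one, attains it at `x0`, and `T x0` is close to `x0` -/
lemma test_pair {n : ℕ} (hn : 10000 ≤ (n : ℝ) + 1) : ∃ (T : X →L[ℂ] X) (x₀ : X) (ρ : ℝ),
    ‖T‖ = 1 ∧ ‖x₀‖ = 1 ∧ ‖T x₀‖ = 1 ∧ 1 ≤ ρ ∧ ρ ≤ 1 + 1 / ((n : ℝ) + 1) ∧
    (∀ x : X, toH (T x) = ((ρ⁻¹ : ℝ) : ℂ) • (lp.single 2 n (W (toH x n)) : H)) ∧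
    ‖x₀ - T x₀‖ ≤ 1000 / ((n : ℝ) + 1) ∧ ‖(toH x₀) n 0 - 1‖ ≤ 1000 / ((n : ℝ) + 1) ∧
    ‖(toH x₀) n 1‖ ≤ 1000 / ((n : ℝ) + 1) := by
  set N : ℝ := (n : ℝ) + 1 with hN
  obtain ⟨v, ρ, hv, hρ, h1, h2, h3, h4, h5, h6⟩ := maximizer_local hn
  have hN0 : 0 < N := by linarith
  have hN1 : 1 ≤ N := by linarith
  have hρ0 : 0 < ρ := by linarith
  have hv0 : v ≠ 0 := by rintro rfl; simp at hv
  have hG := G_pos hN1 hv0
  have hinv : 1 / N ≤ 1 / 10000 := one_div_le_one_div_of_le (by norm_num) hn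
  have hinv0 : 0 < 1 / N := by positivity
  set g : ℝ := Real.sqrt (G N v) with hg
  have hg0 : 0 < g := Real.sqrt_pos.2 hG
  have hg2 : g ^ 2 = G N v := Real.sq_sqrt hG.le
  have h6' := abs_le.1 h6
  have hgl : 1 - 1 / N ≤ g := by nlinarith
  have hgu : g ≤ 1 + 1 / N := by nlinarith
  have hgi0 : 0 < g⁻¹ := by positivity
  have hgi1 : g⁻¹ * g = 1 := inv_mul_cancel₀ hg0.ne'
  have hgil : 1 - 2 * (1 / N) ≤ g⁻¹ := by nlinarith
  have hgiu : g⁻¹ ≤ 1 + 2 * (1 / N) := by nlinarith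
  set T : X →L[ℂ] X := (TXl n ρ).mkContinuous 1 (norm_TXl_le n hρ h2) with hT
  set x₀ : X := toH.symm (((g⁻¹ : ℝ) : ℂ) • (lp.single 2 n v : H)) with hx₀
  have hTx : ∀ x : X, toH (T x) = ((ρ⁻¹ : ℝ) : ℂ) • (lp.single 2 n (W (toH x n)) : H) :=
    fun x => toH_TXl n ρ x
  have hx₀H : toH x₀ = ((g⁻¹ : ℝ) : ℂ) • (lp.single 2 n v : H) := LinearEquiv.apply_symm_apply _ _
  have hx₀n : toH x₀ n = ((g⁻¹ : ℝ) : ℂ) • v := by
    rw [hx₀H, lp.coeFn_smul, Pi.smul_apply, lp.single_apply_self]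
  have hx₀1 : ‖x₀‖ = 1 := by
    have : ‖x₀‖ ^ 2 = 1 ^ 2 := by
      rw [norm_sqX, hx₀H, Phi_smul, Phi_single, Complex.norm_real, Real.norm_of_nonneg hgi0.le,
        ← hN, ← hg2]
      field_simp
    exact (pow_left_inj₀ (norm_nonneg _) zero_le_one two_ne_zero).1 this
  have hTx₀1 : ‖T x₀‖ = 1 := by
    have : ‖T x₀‖ ^ 2 = 1 ^ 2 := by
      have e := norm_TXl_sq n hρ x₀
      rw [hx₀n, map_smul, G_smul, Complex.norm_real, Real.norm_of_nonneg hgi0.le, ← hN, h1,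
        ← hg2] at e
      have e2 : ‖T x₀‖ = ‖TXl n ρ x₀‖ := rfl
      rw [e2, e]
      field_simp
    exact (pow_left_inj₀ (norm_nonneg _) zero_le_one two_ne_zero).1 this
  have hT1 : ‖T‖ = 1 := by
    apply le_antisymm
    · exact (TXl n ρ).mkContinuous_norm_le zero_le_one _
    · have := T.le_opNorm x₀
      rw [hTx₀1, hx₀1, mul_one] at this
      exact this
  refine ⟨T, x₀, ρ, hT1, hx₀1, hTx₀1, hρ, h3, hTx, ?_, ?_, ?_⟩
  · have e1 : toH (x₀ - T x₀) = ((g⁻¹ : ℝ) : ℂ) • (lp.single 2 n (v - ((ρ⁻¹ : ℝ) : ℂ) • W v) : H) := by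
      rw [map_sub, hTx, hx₀n, hx₀H, map_smul, lp.single_smul, lp.single_sub, lp.single_smul,
        smul_sub, smul_comm]
    have e2 : ‖v - ((ρ⁻¹ : ℝ) : ℂ) • W v‖ ≤ 401 * (1 / N) := by
      refine (norm_E2_le _).trans ?_
      have hρi : ρ⁻¹ ≤ 1 := inv_le_one_of_one_le₀ hρ
      have hρi0 : 0 < ρ⁻¹ := by positivity
      have hρρ : ρ⁻¹ * ρ = 1 := inv_mul_cancel₀ hρ0.ne'
      have hρi2 : 1 - 1 / N ≤ ρ⁻¹ := by nlinarith
      have k0 : (v - ((ρ⁻¹ : ℝ) : ℂ) • W v) 0 = ((1 - ρ⁻¹ : ℝ) : ℂ) * v 0 := by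
        rw [PiLp.sub_apply, PiLp.smul_apply, W_zero, smul_eq_mul]; push_cast; ring
      have k1 : (v - ((ρ⁻¹ : ℝ) : ℂ) • W v) 1 = v 1 - ((ρ⁻¹ : ℝ) : ℂ) * (Complex.I * sg * v 1) := by
        rw [PiLp.sub_apply, PiLp.smul_apply, W_one, smul_eq_mul]
      have k2 : ‖(v - ((ρ⁻¹ : ℝ) : ℂ) • W v) 0‖ ≤ 1 / N := by
        rw [k0, norm_mul, Complex.norm_real, Real.norm_of_nonneg (by linarith)]
        have := coord0_le v
        rw [hv] at this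
        nlinarith [norm_nonneg (v 0)]
      have k3 : ‖(v - ((ρ⁻¹ : ℝ) : ℂ) • W v) 1‖ ≤ 400 * (1 / N) := by
        rw [k1]
        refine (norm_sub_le _ _).trans ?_
        rw [norm_mul, norm_mul, norm_mul, Complex.norm_I, Complex.norm_real, Complex.norm_real,
          Real.norm_of_nonneg hρi0.le, Real.norm_of_nonneg sg_pos.le, one_mul]
        have k4 : ρ⁻¹ * (sg * ‖v 1‖) ≤ ‖v 1‖ := by
          have k5 : sg * ‖v 1‖ ≤ ‖v 1‖ := by nlinarith [norm_nonneg (v 1), sg_lt]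
          have k6 : 0 ≤ sg * ‖v 1‖ := mul_nonneg sg_pos.le (norm_nonneg _)
          nlinarith
        have k7 : 200 / N = 200 * (1 / N) := by ring
        linarith
      linarith
    have e3 := le_toH (x₀ - T x₀)
    rw [e1, norm_smul, norm_single', Complex.norm_real, Real.norm_of_nonneg hgi0.le] at e3
    have e4 : g⁻¹ * ‖v - ((ρ⁻¹ : ℝ) : ℂ) • W v‖ ≤ (1 + 2 * (1 / N)) * (401 * (1 / N)) := by
      gcongr
    have e5 : 1000 / N = 1000 * (1 / N) := by ring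
    rw [e5]
    nlinarith
  · rw [hx₀n, PiLp.smul_apply, smul_eq_mul]
    have e1 : ((g⁻¹ : ℝ) : ℂ) * v 0 - 1 = ((g⁻¹ - 1 : ℝ) : ℂ) * v 0 + (v 0 - 1) := by
      push_cast; ring
    rw [e1]
    refine (norm_add_le _ _).trans ?_
    rw [norm_mul, Complex.norm_real, Real.norm_eq_abs]
    have e2 : |g⁻¹ - 1| ≤ 2 * (1 / N) := by rw [abs_le]; constructor <;> linarith
    have e3 := coord0_le v
    rw [hv] at e3
    have e4 : |g⁻¹ - 1| * ‖v 0‖ ≤ 2 * (1 / N) := by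
      nlinarith [abs_nonneg (g⁻¹ - 1), norm_nonneg (v 0)]
    have e5 : 1000 / N = 1000 * (1 / N) := by ring
    have e6 : 200 / N = 200 * (1 / N) := by ring
    rw [e5]
    linarith
  · rw [hx₀n, PiLp.smul_apply, smul_eq_mul, norm_mul, Complex.norm_real,
      Real.norm_of_nonneg hgi0.le]
    have e5 : 1000 / N = 1000 * (1 / N) := by ring
    have e6 : 200 / N = 200 * (1 / N) := by ring
    rw [e5]
    rw [e6] at h4
    have e7 : g⁻¹ * ‖v 1‖ ≤ 2 * (200 * (1 / N)) := by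
      gcongr
      linarith
    linarith

lemma W_vv (ζ : ℂ) : W (vv ζ) = ((sg : ℝ) : ℂ) • vv (Complex.I * ζ) := by
  ext i; fin_cases i
  · simp [W]
  · simp [W]; ring

lemma vv_I (ζ : ℂ) : vv (Complex.I * ζ) = Complex.I • vv ζ := by
  ext i; fin_cases i
  · simp
  · simp

/-- the key comparison of second differences in a block -/
lemma compare {S T : X →L[ℂ] X} {x : X} {μ : ℂ} {ρ : ℝ} {n : ℕ} (hS : ‖S‖ = 1)
    (hμ : ‖μ‖ = 1) (hSx : S x = μ • x)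
    (hT : ∀ y : X, toH (T y) = ((ρ⁻¹ : ℝ) : ℂ) • (lp.single 2 n (W (toH y n)) : H))
    (hST : ‖S - T‖ ≤ 1 / 10 ^ 8) (hμ1 : ‖μ - 1‖ ≤ 3 / 10 ^ 8) (hρ : 1 ≤ ρ)
    (hρ2 : ρ ≤ 1 + 1 / 10 ^ 9) (ζ : ℂ) :
    D (toH x) (lp.single 2 n (vv (Complex.I * ζ)))
      ≤ D (toH x) (lp.single 2 n (vv ζ)) + 4 / 10 ^ 6 * ‖ζ‖ ^ 2 := by
  by_cases hζ : ζ = 0
  · subst hζ; simp
  have hζ0 : 0 < ‖ζ‖ := norm_pos_iff.2 hζ
  set h : X := toH.symm (lp.single 2 n (vv ζ) : H) with hh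
  have hhH : toH h = (lp.single 2 n (vv ζ) : H) := LinearEquiv.apply_symm_apply _ _
  set h' : X := (starRingEnd ℂ) μ • S h with hh'
  have hμμ : (starRingEnd ℂ) μ * μ = 1 := by
    rw [mul_comm, Complex.mul_conj, Complex.normSq_eq_norm_sq, hμ]; simp
  have hcμ : ‖(starRingEnd ℂ) μ‖ = 1 := by rw [Complex.norm_conj, hμ]
  have hxS : x = (starRingEnd ℂ) μ • S x := by rw [hSx, smul_smul, hμμ, one_smul]
  have a1 : ‖x + h'‖ ≤ ‖x + h‖ := by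
    have e : x + h' = (starRingEnd ℂ) μ • S (x + h) := by
      rw [map_add, smul_add, ← hxS]
    rw [e, norm_smul, hcμ, one_mul]
    have := S.le_opNorm (x + h)
    rwa [hS, one_mul] at this
  have a2 : ‖x - h'‖ ≤ ‖x - h‖ := by
    have e : x - h' = (starRingEnd ℂ) μ • S (x - h) := by
      rw [map_sub, smul_sub, ← hxS]
    rw [e, norm_smul, hcμ, one_mul]
    have := S.le_opNorm (x - h)
    rwa [hS, one_mul] at this
  have b : D (toH x) (toH h') ≤ D (toH x) (toH h) := by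
    unfold D
    rw [← map_add, ← map_sub, ← map_add, ← map_sub, ← norm_sqX, ← norm_sqX, ← norm_sqX,
      ← norm_sqX, ← norm_sqX]
    have c1 : ‖x + h'‖ ^ 2 ≤ ‖x + h‖ ^ 2 := by gcongr
    have c2 : ‖x - h'‖ ^ 2 ≤ ‖x - h‖ ^ 2 := by gcongr
    linarith
  have hρ0 : 0 < ρ := by linarith
  have hρi : ρ⁻¹ ≤ 1 := inv_le_one_of_one_le₀ hρ
  have hρi0 : 0 < ρ⁻¹ := by positivity
  have hρρ : ρ⁻¹ * ρ = 1 := inv_mul_cancel₀ hρ0.ne'
  have hρi2 : 1 - 1 / 10 ^ 9 ≤ ρ⁻¹ := by nlinarith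
  have hTh : T h = ((ρ⁻¹ * sg : ℝ) : ℂ) • (Complex.I • h) := by
    apply toH.injective
    rw [hT, hhH, lp.single_apply_self, W_vv, vv_I, map_smul, map_smul, hhH, lp.single_smul,
      lp.single_smul, smul_smul]
    push_cast
    rfl
  have hdiff : h' - Complex.I • h = (starRingEnd ℂ) μ • (S - T) h
      + ((starRingEnd ℂ) μ * ((ρ⁻¹ * sg : ℝ) : ℂ) - 1) • (Complex.I • h) := by
    have e : (S - T) h = S h - T h := rfl
    rw [e, hTh, sub_smul, one_smul, smul_sub, smul_smul, hh']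
    abel
  have hIh : ‖Complex.I • h‖ = ‖h‖ := by rw [norm_smul, Complex.norm_I, one_mul]
  have hsg : sg = 1 - 1 / 10 ^ 7 := rfl
  have c1 : ‖(starRingEnd ℂ) μ * ((ρ⁻¹ * sg : ℝ) : ℂ) - 1‖ ≤ 14 / 10 ^ 8 := by
    have e : (starRingEnd ℂ) μ * ((ρ⁻¹ * sg : ℝ) : ℂ) - 1
        = (starRingEnd ℂ) (μ - 1) * ((ρ⁻¹ * sg : ℝ) : ℂ) + ((ρ⁻¹ * sg - 1 : ℝ) : ℂ) := by
      rw [map_sub, map_one]; push_cast; ring
    rw [e]
    refine (norm_add_le _ _).trans ?_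
    rw [norm_mul, Complex.norm_conj, Complex.norm_real, Complex.norm_real,
      Real.norm_of_nonneg (mul_nonneg hρi0.le sg_pos.le), Real.norm_eq_abs]
    have k1 : ρ⁻¹ * sg ≤ 1 := by rw [hsg]; nlinarith
    have k0 : 0 ≤ ρ⁻¹ * sg := mul_nonneg hρi0.le sg_pos.le
    have k2 : 1 - 11 / 10 ^ 8 ≤ ρ⁻¹ * sg := by rw [hsg]; nlinarith
    have k3 : |ρ⁻¹ * sg - 1| ≤ 11 / 10 ^ 8 := by rw [abs_le]; constructor <;> linarith
    have k4 : ‖μ - 1‖ * (ρ⁻¹ * sg) ≤ 3 / 10 ^ 8 := by nlinarith [norm_nonneg (μ - 1)]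
    linarith
  have c2 : ‖h' - Complex.I • h‖ ≤ 15 / 10 ^ 8 * ‖h‖ := by
    rw [hdiff]
    refine (norm_add_le _ _).trans ?_
    rw [norm_smul, norm_smul, hcμ, one_mul, hIh]
    have k1 : ‖(S - T) h‖ ≤ 1 / 10 ^ 8 * ‖h‖ := ((S - T).le_opNorm h).trans (by gcongr)
    have k2 : ‖(starRingEnd ℂ) μ * ((ρ⁻¹ * sg : ℝ) : ℂ) - 1‖ * ‖h‖ ≤ 14 / 10 ^ 8 * ‖h‖ := by
      gcongr
    linarith
  have hhn : ‖toH h‖ = ‖ζ‖ := by rw [hhH, norm_single', norm_vv]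
  have c3 : ‖toH (h' - Complex.I • h)‖ ≤ 2 / 10 ^ 7 * ‖ζ‖ := by
    have k1 := toH_le (h' - Complex.I • h)
    have k2 := le_toH h
    rw [hhn] at k2
    nlinarith [norm_nonneg h]
  have hgI : (lp.single 2 n (vv (Complex.I * ζ)) : H) = Complex.I • toH h := by
    rw [hhH, vv_I, lp.single_smul]
  have c4 : ‖Complex.I • toH h - toH h'‖ ≤ 2 / 10 ^ 7 * ‖ζ‖ := by
    rw [norm_sub_rev, ← map_smul, ← map_sub]
    exact c3
  have n1 : ‖Complex.I • toH h‖ = ‖ζ‖ := by rw [norm_smul, Complex.norm_I, one_mul, hhn]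
  have n2 : ‖toH h'‖ ≤ 2 * ‖ζ‖ := by
    have : ‖toH h'‖ ≤ ‖Complex.I • toH h‖ + ‖Complex.I • toH h - toH h'‖ := by
      calc ‖toH h'‖ = ‖Complex.I • toH h - (Complex.I • toH h - toH h')‖ := by congr 1; abel
        _ ≤ _ := norm_sub_le _ _
    rw [n1] at this
    linarith
  have hl := D_lip (toH x) (Complex.I • toH h) (toH h') (R := 2 * ‖ζ‖) (by positivity)
    (by rw [n1]; linarith) n2
  rw [hgI]
  have hb2 : D (toH x) (toH h) = D (toH x) (lp.single 2 n (vv ζ)) := by rw [hhH]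
  rw [← hb2]
  have c5 : 10 * (2 * ‖ζ‖) * ‖Complex.I • toH h - toH h'‖ ≤ 4 / 10 ^ 6 * ‖ζ‖ ^ 2 := by
    calc 10 * (2 * ‖ζ‖) * ‖Complex.I • toH h - toH h'‖
        ≤ 10 * (2 * ‖ζ‖) * (2 / 10 ^ 7 * ‖ζ‖) := by gcongr
      _ = 4 / 10 ^ 6 * ‖ζ‖ ^ 2 := by ring
  linarith

lemma D_neg (x h : H) : D x (-h) = D x h := by
  unfold D
  rw [sub_neg_eq_add, ← sub_eq_add_neg]; ring

theorem fail : ¬ PropertyNu ℂ X := by
  intro hnu
  obtain ⟨η, hη, key⟩ := hnu (1 / 10 ^ 8) (by norm_num)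
  obtain ⟨n, hn⟩ := exists_nat_gt (max (10 ^ 12 : ℝ) (1000 / η))
  have hnb : (10 ^ 12 : ℝ) ≤ (n : ℝ) + 1 := by
    have := (le_max_left _ _).trans hn.le; linarith
  have hnη : 1000 / η < (n : ℝ) + 1 := by
    have := lt_of_le_of_lt (le_max_right _ _) hn; linarith
  set N : ℝ := (n : ℝ) + 1 with hN
  have hN0 : 0 < N := by linarith
  have hNη : 1000 / N < η := by
    rw [div_lt_iff₀ hη] at hnη
    rw [div_lt_iff₀ hN0]; linarith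
  have hN4 : 10000 ≤ N := by linarith
  obtain ⟨T, x₀, ρ, hT, hx₀, hTx₀, hρ, hρ2, hTf, hd, hc0, hc1⟩ := test_pair (n := n) hN4
  rw [← hN] at hρ2 hd hc0 hc1
  have hne : ‖T x₀‖ ≠ 0 := by rw [hTx₀]; norm_num
  obtain ⟨f₀, hf₀, hf₀v⟩ := exists_dual_vector ℂ (T x₀) hne
  have hf₀T : f₀ (T x₀) = 1 := by rw [hf₀v, hTx₀]; simp
  have hre : 1 - η < RCLike.re (f₀ x₀) := by
    have e : f₀ x₀ = 1 + f₀ (x₀ - T x₀) := by rw [map_sub, hf₀T]; ring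
    have e2 : ‖f₀ (x₀ - T x₀)‖ ≤ 1000 / N := by
      refine (f₀.le_opNorm _).trans ?_
      rw [hf₀, one_mul]; exact hd
    have e3 := abs_le.1 ((Complex.abs_re_le_norm (f₀ (x₀ - T x₀))).trans e2)
    rw [RCLike.re_to_complex, e, Complex.add_re, Complex.one_re]
    linarith [e3.1]
  obtain ⟨S, x₁, f₁, hS, hx₁, hf₁, hfS, hfx, d1, d2, d3⟩ :=
    key T x₀ f₀ hT hx₀ hf₀ hre (by rw [hf₀T]; simp)
  set μ : ℂ := f₁ (S x₁) with hμ
  -- S x₁ = μ x₁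
  have hSx₁n : ‖S x₁‖ = 1 := by
    apply le_antisymm
    · have := S.le_opNorm x₁; rwa [hS, hx₁, one_mul] at this
    · have := f₁.le_opNorm (S x₁); rwa [← hμ, hfS, hf₁, one_mul] at this
  have hμx : ‖μ • x₁‖ = 1 := by rw [norm_smul, hfS, hx₁, one_mul]
  have hSx : S x₁ = μ • x₁ := by
    have h1 := uc (S x₁) (μ • x₁) hSx₁n hμx
    have h2 : (2 : ℝ) ≤ ‖S x₁ + μ • x₁‖ := by
      have := f₁.le_opNorm (S x₁ + μ • x₁)
      rw [hf₁, one_mul, map_add, map_smul, hfx, ← hμ, smul_eq_mul, mul_one, ← two_mul, norm_mul,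
        hfS] at this
      simpa using this
    have h3 : ‖S x₁ - μ • x₁‖ ^ 2 ≤ 0 := by linarith
    have h4 : ‖S x₁ - μ • x₁‖ = 0 := by
      have := sq_nonneg ‖S x₁ - μ • x₁‖
      exact pow_eq_zero_iff two_ne_zero |>.1 (le_antisymm h3 this)
    exact sub_eq_zero.1 (norm_eq_zero.1 h4)
  have hμ1 : ‖μ - 1‖ ≤ 3 / 10 ^ 8 := by
    have e : μ - 1 = f₁ (S (x₁ - x₀)) + f₁ ((S - T) x₀) + (f₁ - f₀) (T x₀) := by
      have e1 : (S - T) x₀ = S x₀ - T x₀ := rfl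
      have e2 : (f₁ - f₀) (T x₀) = f₁ (T x₀) - f₀ (T x₀) := rfl
      rw [e1, e2, hf₀T, map_sub, map_sub, map_sub, ← hμ]; ring
    have k1 : ‖f₁ (S (x₁ - x₀))‖ ≤ 1 / 10 ^ 8 := by
      refine (f₁.le_opNorm _).trans ?_
      rw [hf₁, one_mul]
      refine (S.le_opNorm _).trans ?_
      rw [hS, one_mul]; exact d1.le
    have k2 : ‖f₁ ((S - T) x₀)‖ ≤ 1 / 10 ^ 8 := by
      refine (f₁.le_opNorm _).trans ?_
      rw [hf₁, one_mul]
      refine ((S - T).le_opNorm _).trans ?_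
      rw [hx₀, mul_one]; exact d3.le
    have k3 : ‖(f₁ - f₀) (T x₀)‖ ≤ 1 / 10 ^ 8 := by
      refine ((f₁ - f₀).le_opNorm _).trans ?_
      rw [hTx₀, mul_one]; exact d2.le
    rw [e]
    refine (norm_add_le _ _).trans ?_
    have k4 := norm_add_le (f₁ (S (x₁ - x₀))) (f₁ ((S - T) x₀))
    linarith
  have hNi : 1 / N ≤ 1 / 10 ^ 12 := one_div_le_one_div_of_le (by norm_num) hnb
  have hρ3 : ρ ≤ 1 + 1 / 10 ^ 9 := by
    have : (1 : ℝ) / 10 ^ 12 ≤ 1 / 10 ^ 9 := by norm_num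
    linarith
  have hNi2 : 1000 / N ≤ 1 / 10 ^ 9 := by
    have : 1000 / N = 1000 * (1 / N) := by ring
    rw [this]; linarith
  -- the block of x₁
  have hsub : ∀ i, (toH x₁) n i = (toH x₀) n i + (toH (x₁ - x₀)) n i := by
    intro i
    rw [map_sub, lp.coeFn_sub, Pi.sub_apply, PiLp.sub_apply]; ring
  have hdist : ‖toH (x₁ - x₀) n‖ ≤ 2 / 10 ^ 8 := by
    have k1 := lp.norm_apply_le_norm (E := fun _ : ℕ => E2) (p := 2) (by norm_num)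
      (toH (x₁ - x₀)) n
    have k2 := toH_le (x₁ - x₀)
    linarith
  have g0 : ‖(toH x₁) n 0 - 1‖ ≤ 1 / 1000 := by
    have e : (toH x₁) n 0 - 1 = ((toH x₀) n 0 - 1) + (toH (x₁ - x₀)) n 0 := by rw [hsub]; ring
    rw [e]
    refine (norm_add_le _ _).trans ?_
    have := coord0_le (toH (x₁ - x₀) n)
    linarith
  have g1 : ‖(toH x₁) n 1‖ ≤ 1 / 1000 := by
    rw [hsub]
    refine (norm_add_le _ _).trans ?_
    have := coord1_le (toH (x₁ - x₀) n)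
    linarith
  obtain ⟨t, ht, hNt, hosc⟩ := local_osc hN4 (toH x₁ n) g0 g1
  have m1 := compare (n := n) hS hfS hSx hTf d3.le hμ1 hρ hρ3 (t : ℂ)
  have m2 := compare (n := n) hS hfS hSx hTf d3.le hμ1 hρ hρ3 (Complex.I * (t : ℂ))
  have e1 : vv (Complex.I * (Complex.I * (t : ℂ))) = - vv (t : ℂ) := by
    rw [vv_I, vv_I, smul_smul, Complex.I_mul_I, neg_one_smul]
  have hnt : ‖(t : ℂ)‖ = t := by rw [Complex.norm_real, Real.norm_of_nonneg ht.le]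
  have hnt2 : ‖Complex.I * (t : ℂ)‖ = t := by rw [norm_mul, Complex.norm_I, one_mul, hnt]
  rw [e1, lp.single_neg, D_neg, hnt2] at m2
  rw [hnt] at m1
  have s1 := D_single (toH x₁) n (vv (t : ℂ))
  have s2 := D_single (toH x₁) n (vv (Complex.I * (t : ℂ)))
  rw [norm_vv, hnt, ← hN] at s1
  rw [norm_vv, hnt2, ← hN] at s2
  rw [s1, s2] at m1 m2
  have ht2 : t ^ 2 ≤ 16 / N ^ 2 := by
    rw [le_div_iff₀ (by positivity)]
    nlinarith [mul_pos hN0 ht]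
  have hfin : |q N (toH x₁ n + vv t) + q N (toH x₁ n - vv t)
        - (q N (toH x₁ n + vv (Complex.I * t)) + q N (toH x₁ n - vv (Complex.I * t)))|
      ≤ 4 / 1000 * t ^ 2 := by
    rw [abs_le]; constructor <;> linarith
  have hp : 0 < 1 / N ^ 2 := by positivity
  have e5 : 1 / (2 * N ^ 2) = 1 / 2 * (1 / N ^ 2) := by field_simp
  have e6 : 16 / N ^ 2 = 16 * (1 / N ^ 2) := by ring
  rw [e5] at hosc
  rw [e6] at ht2
  linarith

end Pool.Agent.R509NU
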